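import Mathlib

/-!
# Additive energy: Gowers Cauchy Schwarz inequality, degrees, and the maximising subset
-/

namespace Pool.Agent.BSGEnergy

open Finset

/-- The additive energy `E(A) = |{(a, b, c, d) ∈ A⁴ : a + b = c + d}|`. -/
def energy {G : Type*} [AddCommGroup G] [DecidableEq G] (A : Finset G) : ℕ :=
  ((A ×ˢ A ×ˢ A ×ˢ A).filter (fun q => q.1 + q.2.1 = q.2.2.1 + q.2.2.2)).card

/-- collision count -/
def coll {α β γ : Type*} [DecidableEq γ] (P : Finset α) (Q : Finset β) (f : α → γ) (g : β → γ) : ℕ :=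
  ∑ p ∈ P, ∑ q ∈ Q, if f p = g q then 1 else 0

lemma coll_eq_sum {α β γ : Type*} [DecidableEq γ] (P : Finset α) (Q : Finset β) (f : α → γ)
    (g : β → γ) (T : Finset γ) (hT : P.image f ⊆ T) :
    coll P Q f g = ∑ t ∈ T, (∑ p ∈ P, if f p = t then 1 else 0) * (∑ q ∈ Q, if g q = t then 1 else 0) := by
  unfold coll
  simp_rw [Finset.sum_mul_sum]
  rw [Finset.sum_comm' (t' := P) (s' := fun _ => T) (by intro x y; simp [and_comm])]
  apply Finset.sum_congr rfl
  intro p hp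
  rw [Finset.sum_comm]
  apply Finset.sum_congr rfl
  intro q hq
  have hfp : f p ∈ T := hT (Finset.mem_image_of_mem f hp)
  rw [Finset.sum_eq_single (f p)]
  · simp [eq_comm]
  · intro b _ hb
    simp [hb.symm]
  · intro h; exact absurd hfp h

lemma coll_sq_le {α β γ : Type*} [DecidableEq γ] (P : Finset α) (Q : Finset β) (f : α → γ)
    (g : β → γ) : coll P Q f g ^ 2 ≤ coll P P f f * coll Q Q g g := by
  have hT1 : P.image f ⊆ P.image f ∪ Q.image g := Finset.subset_union_left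
  have hT2 : Q.image g ⊆ P.image f ∪ Q.image g := Finset.subset_union_right
  rw [coll_eq_sum P Q f g _ hT1, coll_eq_sum P P f f _ hT1, coll_eq_sum Q Q g g _ hT2]
  have := Finset.sum_mul_sq_le_sq_mul_sq (P.image f ∪ Q.image g)
    (fun t => ∑ p ∈ P, if f p = t then 1 else 0) (fun t => ∑ q ∈ Q, if g q = t then 1 else 0)
  simpa [sq] using this

variable {G : Type*} [AddCommGroup G] [DecidableEq G]

/-- the number of solutions of `x₁ + x₂ = x₃ + x₄` -/
def quad (X₁ X₂ X₃ X₄ : Finset G) : ℕ :=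
  ∑ x₁ ∈ X₁, ∑ x₂ ∈ X₂, ∑ x₃ ∈ X₃, ∑ x₄ ∈ X₄, if x₁ + x₂ = x₃ + x₄ then 1 else 0

lemma energy_eq (A : Finset G) : energy A = quad A A A A := by
  unfold energy quad
  rw [Finset.card_filter]
  simp_rw [Finset.sum_product]

lemma quad_eq_coll (X₁ X₂ X₃ X₄ : Finset G) :
    quad X₁ X₂ X₃ X₄ = coll (X₁ ×ˢ X₂) (X₃ ×ˢ X₄) (fun p => p.1 + p.2) (fun p => p.1 + p.2) := by
  unfold quad coll
  simp_rw [Finset.sum_product]

lemma quad_sq_le (X₁ X₂ X₃ X₄ : Finset G) :
    quad X₁ X₂ X₃ X₄ ^ 2 ≤ quad X₁ X₂ X₁ X₂ * quad X₃ X₄ X₃ X₄ := by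
  rw [quad_eq_coll, quad_eq_coll, quad_eq_coll]
  exact coll_sq_le _ _ _ _

lemma sum_rot {α : Type*} (X : Finset α) (f : α → α → α → ℕ) :
    ∑ a ∈ X, ∑ b ∈ X, ∑ c ∈ X, f a b c = ∑ c ∈ X, ∑ b ∈ X, ∑ a ∈ X, f a b c := by
  rw [Finset.sum_comm]
  simp_rw [Finset.sum_comm (s := X) (t := X) (f := fun a c => f a _ c)]
  rw [Finset.sum_comm]

lemma quad_pair_sq_le (X Y : Finset G) : quad X Y X Y ^ 2 ≤ energy X * energy Y := by
  have h1 : quad X Y X Y = coll (X ×ˢ X) (Y ×ˢ Y) (fun p => p.1 - p.2) (fun p => p.2 - p.1) := by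
    unfold quad coll
    simp_rw [Finset.sum_product]
    apply Finset.sum_congr rfl
    intro x _
    rw [Finset.sum_comm]
    apply Finset.sum_congr rfl
    intro x' _
    apply Finset.sum_congr rfl
    intro y _
    apply Finset.sum_congr rfl
    intro y' _
    congr 1
    rw [sub_eq_sub_iff_add_eq_add, add_comm y' x']
  have h2 : ∀ X : Finset G, coll (X ×ˢ X) (X ×ˢ X) (fun p => p.1 - p.2) (fun p => p.1 - p.2) =
      energy X := by
    intro X
    rw [energy_eq]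
    unfold quad coll
    simp_rw [Finset.sum_product]
    apply Finset.sum_congr rfl
    intro x _
    rw [sum_rot]
    apply Finset.sum_congr rfl
    intro x' _
    apply Finset.sum_congr rfl
    intro y _
    apply Finset.sum_congr rfl
    intro y' _
    congr 1
    rw [sub_eq_sub_iff_add_eq_add]
  have h3 : ∀ X : Finset G, coll (X ×ˢ X) (X ×ˢ X) (fun p => p.2 - p.1) (fun p => p.2 - p.1) =
      energy X := by
    intro X
    rw [← h2]
    unfold coll
    apply Finset.sum_congr rfl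
    intro x _
    apply Finset.sum_congr rfl
    intro y _
    congr 1
    simp only
    rw [← neg_sub x.1 x.2, ← neg_sub y.1 y.2, neg_inj]
  rw [h1, ← h2 X, ← h3 Y]
  exact coll_sq_le _ _ _ _

/-- Gowers Cauchy Schwarz -/
lemma quad_pow_le (X₁ X₂ X₃ X₄ : Finset G) :
    quad X₁ X₂ X₃ X₄ ^ 4 ≤ energy X₁ * energy X₂ * (energy X₃ * energy X₄) := by
  have h1 := quad_sq_le X₁ X₂ X₃ X₄
  have h2 := quad_pair_sq_le X₁ X₂
  have h3 := quad_pair_sq_le X₃ X₄
  calc quad X₁ X₂ X₃ X₄ ^ 4 = (quad X₁ X₂ X₃ X₄ ^ 2) ^ 2 := by ring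
    _ ≤ (quad X₁ X₂ X₁ X₂ * quad X₃ X₄ X₃ X₄) ^ 2 := Nat.pow_le_pow_left h1 2
    _ = quad X₁ X₂ X₁ X₂ ^ 2 * quad X₃ X₄ X₃ X₄ ^ 2 := by ring
    _ ≤ _ := Nat.mul_le_mul h2 h3

/-- the degree of `x`: number of `(b, c, d) ∈ A³` with `x + b = c + d` -/
def deg (A : Finset G) (x : G) : ℕ := ∑ b ∈ A, ∑ c ∈ A, ∑ d ∈ A, if x + b = c + d then 1 else 0

lemma quad_mono {X₁ X₂ X₃ X₄ Y₁ Y₂ Y₃ Y₄ : Finset G} (h1 : X₁ ⊆ Y₁) (h2 : X₂ ⊆ Y₂) (h3 : X₃ ⊆ Y₃)
    (h4 : X₄ ⊆ Y₄) : quad X₁ X₂ X₃ X₄ ≤ quad Y₁ Y₂ Y₃ Y₄ := by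
  unfold quad
  refine (Finset.sum_le_sum fun _ _ => ?_).trans (Finset.sum_le_sum_of_subset h1)
  refine (Finset.sum_le_sum fun _ _ => ?_).trans (Finset.sum_le_sum_of_subset h2)
  refine (Finset.sum_le_sum fun _ _ => ?_).trans (Finset.sum_le_sum_of_subset h3)
  exact Finset.sum_le_sum_of_subset h4

lemma energy_mono {X Y : Finset G} (h : X ⊆ Y) : energy X ≤ energy Y := by
  rw [energy_eq, energy_eq]; exact quad_mono h h h h

lemma energy_le (A : Finset G) : energy A ≤ A.card ^ 3 := by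
  rw [energy_eq]
  unfold quad
  have : ∀ x ∈ A, ∑ y ∈ A, ∑ z ∈ A, ∑ w ∈ A, (if x + y = z + w then 1 else 0) ≤ A.card ^ 2 := by
    intro x _
    have h : ∀ y ∈ A, ∑ z ∈ A, ∑ w ∈ A, (if x + y = z + w then 1 else 0) ≤ A.card := by
      intro y _
      have h' : ∀ z ∈ A, ∑ w ∈ A, (if x + y = z + w then 1 else 0) ≤ 1 := by
        intro z _
        rw [← Finset.card_filter]
        apply Finset.card_le_one.mpr
        intro a ha b hb
        have h1 := (Finset.mem_filter.mp ha).2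
        have h2 := (Finset.mem_filter.mp hb).2
        exact add_left_cancel (h1.symm.trans h2)
      calc _ ≤ ∑ z ∈ A, 1 := Finset.sum_le_sum h'
        _ = _ := by simp
    calc _ ≤ ∑ y ∈ A, A.card := Finset.sum_le_sum h
      _ = _ := by simp [sq]
  calc _ ≤ ∑ x ∈ A, A.card ^ 2 := Finset.sum_le_sum this
    _ = _ := by simp; ring

lemma energy_pos {A : Finset G} (hA : A.Nonempty) : 0 < energy A := by
  obtain ⟨a, ha⟩ := hA
  unfold energy
  apply Finset.card_pos.mpr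
  exact ⟨(a, a, a, a), by simp [ha]⟩

lemma deg_eq (A : Finset G) (x : G) : deg A x = quad {x} A A A := by
  simp [deg, quad]

lemma quad_swap (X₁ X₂ X₃ X₄ : Finset G) : quad X₁ X₂ X₃ X₄ = quad X₂ X₁ X₃ X₄ := by
  unfold quad
  rw [Finset.sum_comm]
  simp_rw [add_comm]

lemma quad_symm (X₁ X₂ X₃ X₄ : Finset G) : quad X₁ X₂ X₃ X₄ = quad X₃ X₄ X₁ X₂ := by
  rw [quad_eq_coll, quad_eq_coll]
  unfold coll
  rw [Finset.sum_comm]
  simp_rw [eq_comm]

lemma quad_erase (A X₂ X₃ X₄ : Finset G) {x : G} (hx : x ∈ A) :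
    quad A X₂ X₃ X₄ = quad {x} X₂ X₃ X₄ + quad (A.erase x) X₂ X₃ X₄ := by
  conv_lhs => rw [← Finset.insert_erase hx]
  unfold quad
  rw [Finset.sum_insert (Finset.notMem_erase x A), Finset.sum_singleton]

/-- deleting a point destroys at most `4 deg` quadruples -/
lemma energy_erase (A : Finset G) {x : G} (hx : x ∈ A) :
    energy A ≤ energy (A.erase x) + 4 * deg A x := by
  have hsub : A.erase x ⊆ A := Finset.erase_subset x A
  have e1 := quad_erase A A A A hx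
  have e2 : quad (A.erase x) A A A ≤ deg A x + quad (A.erase x) (A.erase x) A A := by
    rw [quad_swap, quad_erase A _ A A hx, deg_eq, quad_swap (A.erase x)]
    exact Nat.add_le_add_right (quad_mono subset_rfl hsub subset_rfl subset_rfl) _
  have e3 : quad (A.erase x) (A.erase x) A A ≤
      deg A x + quad (A.erase x) (A.erase x) (A.erase x) A := by
    rw [quad_symm, quad_erase A _ _ _ hx, deg_eq, quad_symm (A.erase x) A]
    exact Nat.add_le_add_right (quad_mono subset_rfl subset_rfl hsub hsub) _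
  have e4 : quad (A.erase x) (A.erase x) (A.erase x) A ≤
      deg A x + quad (A.erase x) (A.erase x) (A.erase x) (A.erase x) := by
    rw [quad_symm, quad_swap, quad_erase A _ _ _ hx, deg_eq,
      quad_symm (A.erase x) (A.erase x) (A.erase x) (A.erase x)]
    exact Nat.add_le_add_right (quad_mono subset_rfl hsub hsub hsub) _
  rw [energy_eq, energy_eq]
  rw [← deg_eq] at e1
  omega

lemma energy_eq_sum_deg (A : Finset G) : energy A = ∑ x ∈ A, deg A x := by
  rw [energy_eq]; rfl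

/-- The hypothesis satisfied by the maximiser of `E(X)^100 / |X|^299` among nonempty subsets. -/
def Extremal (A : Finset G) : Prop :=
  ∀ X ⊆ A, energy X ^ 100 * A.card ^ 299 ≤ energy A ^ 100 * X.card ^ 299

lemma exists_extremal {A : Finset G} (hA : A.Nonempty) : ∃ B ⊆ A, B.Nonempty ∧ Extremal B ∧
    energy A ^ 100 * B.card ^ 299 ≤ energy B ^ 100 * A.card ^ 299 := by
  have hne : (A.powerset.filter Finset.Nonempty).Nonempty := ⟨A, by simp [hA]⟩
  obtain ⟨B, hB, hmax⟩ := Finset.exists_max_image (A.powerset.filter Finset.Nonempty)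
    (fun X => (energy X : ℚ) ^ 100 / (X.card : ℚ) ^ 299) hne
  rw [Finset.mem_filter, Finset.mem_powerset] at hB
  obtain ⟨hBA, hBne⟩ := hB
  have hBpos : (0:ℚ) < (B.card : ℚ) ^ 299 := by
    have := hBne.card_pos
    positivity
  have key : ∀ X ⊆ A, X.Nonempty → energy X ^ 100 * B.card ^ 299 ≤ energy B ^ 100 * X.card ^ 299 := by
    intro X hX hXne
    have hXpos : (0:ℚ) < (X.card : ℚ) ^ 299 := by
      have := hXne.card_pos
      positivity
    have := hmax X (by simp [hX, hXne])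
    rw [div_le_div_iff₀ hXpos hBpos] at this
    exact_mod_cast this
  refine ⟨B, hBA, hBne, ?_, key A subset_rfl hA⟩
  intro X hX
  rcases X.eq_empty_or_nonempty with rfl | hXne
  · simp [energy]
  · exact key X (hX.trans hBA) hXne

/-- real inequality behind the degree bound -/
lemma pow_ineq {u : ℝ} (h0 : 0 ≤ u) (h1 : u ≤ 1) :
    u ^ 299 ≤ (1 - 299 / 100 * u * (1 - u)) ^ 100 := by
  have h2 : u ^ (99 / 100 : ℝ) ≤ 1 / 100 + 99 / 100 * u := by
    have := Real.geom_mean_le_arith_mean2_weighted (w₁ := 1 / 100) (w₂ := 99 / 100) (p₁ := 1)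
      (p₂ := u) (by norm_num) (by norm_num) (by norm_num) h0 (by norm_num)
    simpa using this
  have h3 : u ^ 99 ≤ (1 / 100 + 99 / 100 * u) ^ 100 := by
    have e : u ^ 99 = (u ^ (99 / 100 : ℝ)) ^ 100 := by
      rw [← Real.rpow_natCast (u ^ (99 / 100 : ℝ)), ← Real.rpow_mul h0, ← Real.rpow_natCast]
      norm_num
    rw [e]
    exact pow_le_pow_left₀ (Real.rpow_nonneg h0 _) h2 100
  have h4 : u ^ 2 * (1 / 100 + 99 / 100 * u) ≤ 1 - 299 / 100 * u * (1 - u) := by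
    have : 0 ≤ (1 - u) * ((1 - u) * (1 - 99 / 100 * u)) := by
      apply mul_nonneg (by linarith) (mul_nonneg (by linarith) (by linarith))
    nlinarith
  obtain ⟨v, hv⟩ : ∃ v, v = 1 / 100 + 99 / 100 * u := ⟨_, rfl⟩
  rw [← hv] at h3 h4
  have hv0 : 0 ≤ v := by rw [hv]; positivity
  have e1 : u ^ 299 = (u ^ 2) ^ 100 * u ^ 99 := by rw [← pow_mul, ← pow_add]
  have e2 : (u ^ 2) ^ 100 * u ^ 99 ≤ (u ^ 2) ^ 100 * v ^ 100 :=
    mul_le_mul_of_nonneg_left h3 (pow_nonneg (pow_nonneg h0 2) 100)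
  have e3 : (u ^ 2) ^ 100 * v ^ 100 = (u ^ 2 * v) ^ 100 := (mul_pow _ _ _).symm
  have e4 : (u ^ 2 * v) ^ 100 ≤ (1 - 299 / 100 * u * (1 - u)) ^ 100 :=
    pow_le_pow_left₀ (mul_nonneg (pow_nonneg h0 2) hv0) h4 100
  rw [e1]
  exact e2.trans (e3.le.trans e4)

lemma deg_real {n E E' D : ℝ} (hn1 : 1 ≤ n) (hE : 0 < E) (hE' : 0 ≤ E')
    (h1 : E' ^ 100 * n ^ 299 ≤ E ^ 100 * (n - 1) ^ 299) (h2 : E ≤ E' + 4 * D) :
    299 / 400 * (1 - 1 / n) * (E / n) ≤ D := by
  have hn : 0 < n := by linarith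
  obtain ⟨u, hu⟩ : ∃ u : ℝ, u = 1 - 1 / n := ⟨_, rfl⟩
  have hu0 : 0 ≤ u := by
    rw [hu, sub_nonneg, div_le_one hn]; exact hn1
  have hu1 : u ≤ 1 := by
    rw [hu]; have : 0 ≤ 1 / n := by positivity
    linarith
  have hnu : n - 1 = u * n := by rw [hu]; field_simp
  have h5 : 0 ≤ 1 - 299 / 100 * u * (1 - u) := by nlinarith [sq_nonneg (u - 1 / 2)]
  have h3 : E' ^ 100 ≤ (E * (1 - 299 / 100 * u * (1 - u))) ^ 100 := by
    rw [hnu, mul_pow u n, ← mul_assoc] at h1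
    have h1' := le_of_mul_le_mul_right h1 (pow_pos hn 299)
    have := mul_le_mul_of_nonneg_left (pow_ineq hu0 hu1) (pow_nonneg hE.le 100)
    rw [mul_pow]
    exact h1'.trans this
  have h4 : E' ≤ E * (1 - 299 / 100 * u * (1 - u)) :=
    (pow_le_pow_iff_left₀ hE' (mul_nonneg hE.le h5) (by norm_num)).mp h3
  have h6 : 1 - u = 1 / n := by rw [hu]; ring
  rw [h6] at h4
  have h7 : 299 / 400 * u * (E / n) = E * (299 / 100 * u * (1 / n)) / 4 := by
    ring
  rw [← hu, h7]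
  linarith

/-- In an extremal set every point has a large degree. -/
lemma deg_lower {A : Finset G} (hext : Extremal A) {x : G} (hx : x ∈ A) :
    299 / 400 * (1 - 1 / (A.card : ℝ)) * ((energy A : ℝ) / A.card) ≤ deg A x := by
  have hn1 : (1:ℝ) ≤ A.card := by exact_mod_cast Finset.card_pos.mpr ⟨x, hx⟩
  have hE : (0:ℝ) < energy A := by exact_mod_cast energy_pos ⟨x, hx⟩
  have h1 := hext (A.erase x) (Finset.erase_subset x A)
  have h2 := energy_erase A hx
  have hc : ((A.erase x).card : ℝ) = (A.card : ℝ) - 1 := by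
    rw [Finset.card_erase_of_mem hx, Nat.cast_sub (Finset.card_pos.mpr ⟨x, hx⟩)]
    simp
  apply deg_real hn1 hE (Nat.cast_nonneg (energy (A.erase x)))
  · rw [← hc]
    exact_mod_cast h1
  · exact_mod_cast h2

lemma quad_single_le (A : Finset G) (y x : G) : quad {y} A {x} A ≤ A.card := by
  unfold quad
  simp only [Finset.sum_singleton]
  calc _ ≤ ∑ a ∈ A, 1 := by
        apply Finset.sum_le_sum
        intro a _
        rw [← Finset.card_filter]
        apply Finset.card_le_one.mpr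
        intro b hb c hc
        have h1 := (Finset.mem_filter.mp hb).2
        have h2 := (Finset.mem_filter.mp hc).2
        exact add_left_cancel (h1.symm.trans h2)
    _ = _ := by simp

lemma sum_quad_single (Y X₂ X₃ X₄ : Finset G) : ∑ y ∈ Y, quad {y} X₂ X₃ X₄ = quad Y X₂ X₃ X₄ := by
  unfold quad
  simp only [Finset.sum_singleton]

lemma quad_AASA (A S : Finset G) : quad A A S A = ∑ z ∈ S, deg A z := by
  rw [quad_symm, ← sum_quad_single]
  simp_rw [deg_eq]

lemma quad_ASAA (A S : Finset G) : quad A S A A = ∑ z ∈ S, deg A z := by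
  rw [quad_swap, ← sum_quad_single]
  simp_rw [deg_eq]

lemma growth_real {A₀ E a g t eS eY : ℝ} (hA₀ : 0 ≤ A₀) (hE : 0 < E) (ha : 0 < a)
    (heS : 0 ≤ eS) (heY : 0 ≤ eY) (hg : 0 ≤ g)
    (hmain : A₀ * E * a ≤ t) (hCS : t ^ 4 ≤ eS * eY * E ^ 2)
    (hS2 : eS ^ 100 ≤ E ^ 100 * a ^ 299) (hY2 : eY ^ 100 ≤ E ^ 100 * g ^ 299) :
    A₀ ^ 400 * a ^ 101 ≤ g ^ 299 := by
  have h0 : 0 ≤ A₀ * E * a := by positivity
  have h1 : (A₀ * E * a) ^ 400 ≤ (eS * eY * E ^ 2) ^ 100 := by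
    calc (A₀ * E * a) ^ 400 = ((A₀ * E * a) ^ 4) ^ 100 := by rw [← pow_mul]
      _ ≤ (t ^ 4) ^ 100 := pow_le_pow_left₀ (pow_nonneg h0 4) (pow_le_pow_left₀ h0 hmain 4) 100
      _ ≤ _ := pow_le_pow_left₀ (pow_nonneg (h0.trans hmain) 4) hCS 100
  have h2 : (eS * eY * E ^ 2) ^ 100 = eS ^ 100 * eY ^ 100 * (E ^ 2) ^ 100 := by
    rw [mul_pow, mul_pow]
  have h3 : eS ^ 100 * eY ^ 100 * (E ^ 2) ^ 100 ≤
      (E ^ 100 * a ^ 299) * (E ^ 100 * g ^ 299) * (E ^ 2) ^ 100 := by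
    apply mul_le_mul_of_nonneg_right _ (pow_nonneg (pow_nonneg hE.le 2) 100)
    exact mul_le_mul hS2 hY2 (pow_nonneg heY 100)
      (mul_nonneg (pow_nonneg hE.le 100) (pow_nonneg ha.le 299))
  have h4 : (A₀ * E * a) ^ 400 = (A₀ ^ 400 * a ^ 101) * (E ^ 400 * a ^ 299) := by
    rw [mul_pow, mul_pow]
    have : a ^ 400 = a ^ 101 * a ^ 299 := by rw [← pow_add]
    rw [this]
    ring
  have h5 : (E ^ 100 * a ^ 299) * (E ^ 100 * g ^ 299) * (E ^ 2) ^ 100 =
      g ^ 299 * (E ^ 400 * a ^ 299) := by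
    have : E ^ 400 = E ^ 100 * E ^ 100 * (E ^ 2) ^ 100 := by
      rw [← pow_add, ← pow_mul, ← pow_add]
    rw [this]
    ring
  rw [h2] at h1
  have h6 := h1.trans h3
  rw [h4, h5] at h6
  exact le_of_mul_le_mul_right h6 (mul_pos (pow_pos hE 400) (pow_pos ha 299))

/-- The growth step. -/
lemma growth {A S : Finset G} (hext : Extremal A) (hS : S ⊆ A) (hSne : S.Nonempty) (N : G → ℕ)
    {c ε : ℝ} (hc : 0 < c) (hε : 0 < ε) (hε1 : ε < 1)
    (hdeg : c * ((energy A : ℝ) / A.card) * S.card ≤ ((∑ y ∈ A, N y : ℕ) : ℝ))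
    (hCS : ∀ Y ⊆ A, (∑ y ∈ Y, N y) ^ 4 ≤ energy S * energy Y * energy A ^ 2) :
    ((1 - ε) * c) ^ 400 * ((S.card : ℝ) / A.card) ^ 101 ≤
      (((A.filter (fun y => ε * c * ((energy A : ℝ) / A.card) * ((S.card : ℝ) / A.card) ≤ N y)).card : ℝ)
        / A.card) ^ 299 := by
  classical
  have hAne : A.Nonempty := hSne.mono hS
  have hn : (0:ℝ) < A.card := by exact_mod_cast hAne.card_pos
  have hs : (0:ℝ) < S.card := by exact_mod_cast hSne.card_pos
  have hE : (0:ℝ) < energy A := by exact_mod_cast energy_pos hAne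
  obtain ⟨thr, hthr⟩ : ∃ thr : ℝ, thr = ε * c * ((energy A : ℝ) / A.card) * ((S.card : ℝ) / A.card) :=
    ⟨_, rfl⟩
  rw [← hthr]
  obtain ⟨Y, hY⟩ : ∃ Y, Y = A.filter (fun y => thr ≤ (N y : ℝ)) := ⟨_, rfl⟩
  rw [← hY]
  have hYA : Y ⊆ A := by rw [hY]; exact Finset.filter_subset _ _
  have hsplit : ((∑ y ∈ A, N y : ℕ) : ℝ) ≤ ((∑ y ∈ Y, N y : ℕ) : ℝ) + A.card * thr := by
    have e : (∑ y ∈ A, (N y : ℝ)) = (∑ y ∈ Y, (N y : ℝ)) +
        ∑ y ∈ A.filter (fun y => ¬ thr ≤ (N y : ℝ)), (N y : ℝ) := by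
      rw [hY, Finset.sum_filter_add_sum_filter_not]
    push_cast
    rw [e]
    have : ∑ y ∈ A.filter (fun y => ¬ thr ≤ (N y : ℝ)), (N y : ℝ) ≤ A.card * thr := by
      calc _ ≤ ∑ y ∈ A.filter (fun y => ¬ thr ≤ (N y : ℝ)), thr := by
            apply Finset.sum_le_sum
            intro y hy
            have := (Finset.mem_filter.mp hy).2
            push Not at this
            exact this.le
        _ = ((A.filter (fun y => ¬ thr ≤ (N y : ℝ))).card : ℝ) * thr := by simp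
        _ ≤ A.card * thr := by
            have : 0 ≤ thr := by rw [hthr]; positivity
            gcongr
            exact Finset.filter_subset _ _
    linarith
  have hmain : (1 - ε) * c * (energy A : ℝ) * ((S.card : ℝ) / A.card) ≤
      ((∑ y ∈ Y, N y : ℕ) : ℝ) := by
    have e1 : (A.card : ℝ) * thr = ε * (c * ((energy A : ℝ) / A.card) * S.card) := by
      rw [hthr]; field_simp
    have e2 : (1 - ε) * c * (energy A : ℝ) * ((S.card : ℝ) / A.card) =
        (1 - ε) * (c * ((energy A : ℝ) / A.card) * S.card) := by ring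
    rw [e2]
    rw [e1] at hsplit
    linarith
  apply growth_real (E := (energy A : ℝ)) (eS := energy S) (eY := energy Y)
    (mul_nonneg (by linarith) hc.le) hE (by positivity) (by positivity) (by positivity)
    (by positivity) hmain
  · exact_mod_cast hCS Y hYA
  · rw [div_pow, ← mul_div_assoc, le_div_iff₀ (pow_pos hn 299)]
    exact_mod_cast hext S hS
  · rw [div_pow, ← mul_div_assoc, le_div_iff₀ (pow_pos hn 299)]
    exact_mod_cast hext Y hYA

end Pool.Agent.BSGEnergy
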