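import Mathlib
import Pool.Agent.BSGEnergy.Basic

/-!
# Chains of popular differences and the resulting bound for the sumset
-/

namespace Pool.Agent.BSGEnergy

open Finset

variable {G : Type*} [AddCommGroup G] [DecidableEq G]

/-- `walk A f j d`: sum of `f (d - ∑ (aᵢ - bᵢ))` over `j` pairs `(aᵢ, bᵢ) ∈ A²` -/
def walk (A : Finset G) (f : G → ℕ) : ℕ → G → ℕ
  | 0, d => f d
  | j + 1, d => ∑ p ∈ A ×ˢ A, walk A f j (d - (p.1 - p.2))

/-- indicator of `0` -/
def dl : G → ℕ := fun d => if d = 0 then 1 else 0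

/-- number of representations as a sum of two elements of `A` -/
def sm (A : Finset G) : G → ℕ := fun d => ∑ a ∈ A, ∑ b ∈ A, if d = a + b then 1 else 0

lemma sum_shift (B : Finset G) (t : G) (f : G → ℕ) :
    ∑ h ∈ B, f (h - t) = ∑ h ∈ B.image (fun h => h - t), f h := by
  rw [Finset.sum_image]
  intro a _ b _ h
  simpa using h

lemma walk_mass (A : Finset G) (f : G → ℕ) (C : ℕ) (hf : ∀ B : Finset G, ∑ g ∈ B, f g ≤ C) (j : ℕ) :
    ∀ B : Finset G, ∑ g ∈ B, walk A f j g ≤ C * A.card ^ (2 * j) := by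
  induction j with
  | zero => intro B; simpa [walk] using hf B
  | succ j ih =>
    intro B
    simp only [walk]
    rw [Finset.sum_comm]
    calc ∑ p ∈ A ×ˢ A, ∑ g ∈ B, walk A f j (g - (p.1 - p.2))
        ≤ ∑ p ∈ A ×ˢ A, C * A.card ^ (2 * j) := by
          apply Finset.sum_le_sum
          intro p _
          rw [sum_shift B (p.1 - p.2) (walk A f j)]
          exact ih _
      _ = C * A.card ^ (2 * (j + 1)) := by
          rw [Finset.sum_const, Finset.card_product]
          simp only [smul_eq_mul]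
          ring

lemma dl_mass (B : Finset G) : ∑ g ∈ B, dl g ≤ 1 := by
  unfold dl
  rw [Finset.sum_ite_eq']
  split_ifs <;> simp

lemma sm_mass (A B : Finset G) : ∑ g ∈ B, sm A g ≤ A.card ^ 2 := by
  unfold sm
  rw [Finset.sum_comm]
  simp_rw [Finset.sum_comm (s := B) (t := A)]
  calc ∑ a ∈ A, ∑ b ∈ A, ∑ g ∈ B, (if g = a + b then 1 else 0) ≤ ∑ a ∈ A, ∑ b ∈ A, 1 := by
        apply Finset.sum_le_sum; intro a _
        apply Finset.sum_le_sum; intro b _
        rw [Finset.sum_ite_eq']
        split_ifs <;> simp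
    _ = A.card ^ 2 := by simp [sq]

lemma walk_conv (A : Finset G) (f : G → ℕ) (k : ℕ) (j : ℕ) : ∀ (g : G) (B : Finset G),
    ∑ h ∈ B, walk A dl j h * walk A f k (g - h) ≤ walk A f (j + k) g := by
  induction j with
  | zero =>
    intro g B
    simp only [walk, dl, ite_mul, one_mul, zero_mul, Nat.zero_add]
    rw [Finset.sum_ite_eq']
    split_ifs <;> simp
  | succ j ih =>
    intro g B
    have e : j + 1 + k = (j + k) + 1 := by ring
    rw [e]
    simp only [walk]
    simp_rw [Finset.sum_mul]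
    rw [Finset.sum_comm]
    apply Finset.sum_le_sum
    intro p _
    have h1 : ∑ h ∈ B, walk A dl j (h - (p.1 - p.2)) * walk A f k (g - h) =
        ∑ h ∈ B.image (fun h => h - (p.1 - p.2)), walk A dl j h * walk A f k ((g - (p.1 - p.2)) - h) := by
      rw [← sum_shift B (p.1 - p.2) (fun h => walk A dl j h * walk A f k ((g - (p.1 - p.2)) - h))]
      apply Finset.sum_congr rfl
      intro h _
      congr 2
      abel
    rw [h1]
    exact ih _ _

lemma conv_step (A : Finset G) (f : G → ℕ) (k j : ℕ) (S : Finset G) (x g : G) :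
    ∑ z ∈ S, walk A dl j (x - z) * walk A f k (z + (g - x)) ≤ walk A f (j + k) g := by
  refine le_trans (le_of_eq ?_) (walk_conv A f k j g (S.image (fun z => x - z)))
  rw [Finset.sum_image]
  · apply Finset.sum_congr rfl
    intro z _
    congr 2
    abel
  · intro a _ b _ h
    simpa using h

lemma walk_one (A S : Finset G) (y : G) : ∑ z ∈ S, walk A dl 1 (z - y) = quad {y} A S A := by
  simp only [walk, dl, quad, Finset.sum_singleton, Finset.sum_product]
  rw [Finset.sum_comm]
  apply Finset.sum_congr rfl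
  intro a _
  apply Finset.sum_congr rfl
  intro z _
  apply Finset.sum_congr rfl
  intro b _
  congr 1
  rw [eq_iff_iff, sub_eq_zero, sub_eq_sub_iff_add_eq_add, eq_comm, add_comm a y]

lemma sm_sum (A S : Finset G) (z : G) : ∑ u ∈ S, walk A (sm A) 0 (u + z) = quad {z} S A A := by
  simp only [walk, sm, quad, Finset.sum_singleton]
  apply Finset.sum_congr rfl
  intro u _
  apply Finset.sum_congr rfl
  intro a _
  apply Finset.sum_congr rfl
  intro b _
  rw [add_comm]

/-- The chain of sets started at `x`. -/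
noncomputable def chain (A : Finset G) (θ : ℝ) (x : G) : ℕ → Finset G
  | 0 => {x}
  | j + 1 => A.filter (fun y => θ * ((energy A : ℝ) / A.card) * (((chain A θ x j).card : ℝ) / A.card) ≤
      (quad {y} A (chain A θ x j) A : ℝ))

/-- The last step of the second chain uses sums in place of differences. -/
noncomputable def last (A : Finset G) (θ : ℝ) (y : G) (j : ℕ) : Finset G :=
  A.filter (fun z => θ * ((energy A : ℝ) / A.card) * (((chain A θ y j).card : ℝ) / A.card) ≤
      (quad {z} (chain A θ y j) A A : ℝ))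

lemma chain_subset {A : Finset G} {θ : ℝ} {x : G} (hx : x ∈ A) (j : ℕ) : chain A θ x j ⊆ A := by
  cases j with
  | zero => simpa [chain] using hx
  | succ j => exact Finset.filter_subset _ _

lemma last_subset {A : Finset G} {θ : ℝ} {x : G} (j : ℕ) : last A θ x j ⊆ A :=
  Finset.filter_subset _ _

/-- lower bound for the number of paths, given lower bounds `a j` for the densities of the chain -/
lemma chain_path {A : Finset G} {θ : ℝ} (hθ : 0 ≤ θ) {x : G} (a : ℕ → ℝ) (ha0 : ∀ j, 0 ≤ a j)
    (ha : ∀ j, a j ≤ ((chain A θ x j).card : ℝ) / A.card) (j : ℕ) :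
    ∀ y ∈ chain A θ x j, ∏ i ∈ range j, (θ * ((energy A : ℝ) / A.card) * a i) ≤
      (walk A dl j (x - y) : ℝ) := by
  induction j with
  | zero =>
    intro y hy
    simp only [chain, Finset.mem_singleton] at hy
    simp [walk, dl, hy]
  | succ j ih =>
    intro y hy
    rw [Finset.prod_range_succ]
    simp only [chain, Finset.mem_filter] at hy
    obtain ⟨hyA, hy2⟩ := hy
    have hP : 0 ≤ ∏ i ∈ range j, (θ * ((energy A : ℝ) / A.card) * a i) := by
      apply Finset.prod_nonneg
      intro i _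
      exact mul_nonneg (by positivity) (ha0 i)
    have h1 := conv_step A dl 1 j (chain A θ x j) x (x - y)
    have e : ∀ z, z + (x - y - x) = z - y := by intro z; abel
    simp_rw [e] at h1
    have h2 : (∏ i ∈ range j, (θ * ((energy A : ℝ) / A.card) * a i)) *
        (quad {y} A (chain A θ x j) A : ℝ) ≤ (walk A dl (j + 1) (x - y) : ℝ) := by
      rw [← walk_one]
      push_cast
      rw [Finset.mul_sum]
      calc _ ≤ ∑ z ∈ chain A θ x j, (walk A dl j (x - z) : ℝ) * (walk A dl 1 (z - y) : ℝ) := by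
            apply Finset.sum_le_sum
            intro z hz
            exact mul_le_mul_of_nonneg_right (ih z hz) (by positivity)
        _ ≤ _ := by exact_mod_cast h1
    refine le_trans ?_ h2
    apply mul_le_mul_of_nonneg_left _ hP
    refine le_trans ?_ hy2
    exact mul_le_mul_of_nonneg_left (ha j) (by positivity)

lemma last_path {A : Finset G} {θ : ℝ} (hθ : 0 ≤ θ) {y : G} (a : ℕ → ℝ) (ha0 : ∀ j, 0 ≤ a j)
    (ha : ∀ j, a j ≤ ((chain A θ y j).card : ℝ) / A.card) (j : ℕ) :
    ∀ z ∈ last A θ y j, ∏ i ∈ range (j + 1), (θ * ((energy A : ℝ) / A.card) * a i) ≤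
      (walk A (sm A) j (z + y) : ℝ) := by
  intro z hz
  rw [Finset.prod_range_succ]
  simp only [last, Finset.mem_filter] at hz
  obtain ⟨hzA, hz2⟩ := hz
  have hP : 0 ≤ ∏ i ∈ range j, (θ * ((energy A : ℝ) / A.card) * a i) := by
    apply Finset.prod_nonneg
    intro i _
    exact mul_nonneg (by positivity) (ha0 i)
  have h1 := conv_step A (sm A) 0 j (chain A θ y j) y (z + y)
  have e : ∀ u, u + (z + y - y) = u + z := by intro u; abel
  simp_rw [e] at h1
  have h2 : (∏ i ∈ range j, (θ * ((energy A : ℝ) / A.card) * a i)) *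
      (quad {z} (chain A θ y j) A A : ℝ) ≤ (walk A (sm A) j (z + y) : ℝ) := by
    rw [← sm_sum]
    push_cast
    rw [Finset.mul_sum]
    calc _ ≤ ∑ u ∈ chain A θ y j, (walk A dl j (y - u) : ℝ) * (walk A (sm A) 0 (u + z) : ℝ) := by
          apply Finset.sum_le_sum
          intro u hu
          exact mul_le_mul_of_nonneg_right (chain_path hθ a ha0 ha j u hu) (by positivity)
      _ ≤ _ := by exact_mod_cast h1
  refine le_trans ?_ h2
  apply mul_le_mul_of_nonneg_left _ hP
  refine le_trans ?_ hz2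
  exact mul_le_mul_of_nonneg_left (ha j) (by positivity)

open Pointwise in
/-- The sumset bound obtained from chains of length `m + 1`. -/
lemma sumset_bound {A : Finset G} (hA : A.Nonempty) {θ : ℝ} (hθ : 0 ≤ θ) (a : ℕ → ℝ)
    (ha0 : ∀ j, 0 ≤ a j)
    (ha : ∀ x ∈ A, ∀ j, a j ≤ ((chain A θ x j).card : ℝ) / A.card) (m : ℕ)
    (hl : ∀ x ∈ A, a (m + 1) ≤ ((last A θ x m).card : ℝ) / A.card) :
    (((A + A).card : ℝ)) * ((∏ i ∈ range (m + 1), (θ * ((energy A : ℝ) / A.card) * a i)) ^ 2 *
      ((2 * a (m + 1) - 1) * A.card)) ≤ (A.card : ℝ) ^ (2 + 2 * (2 * m + 1)) := by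
  have hn : (0:ℝ) < A.card := by exact_mod_cast hA.card_pos
  obtain ⟨P, hP⟩ : ∃ P, P = ∏ i ∈ range (m + 1), (θ * ((energy A : ℝ) / A.card) * a i) := ⟨_, rfl⟩
  rw [← hP]
  have hP0 : 0 ≤ P := by
    rw [hP]
    apply Finset.prod_nonneg
    intro i _
    exact mul_nonneg (by positivity) (ha0 i)
  have key : ∀ g ∈ A + A, P ^ 2 * ((2 * a (m + 1) - 1) * A.card) ≤ (walk A (sm A) (m + 1 + m) g : ℝ) := by
    intro g hg
    obtain ⟨x, hx, y, hy, rfl⟩ := Finset.mem_add.mp hg
    obtain ⟨Z, hZ⟩ : ∃ Z, Z = chain A θ x (m + 1) ∩ last A θ y m := ⟨_, rfl⟩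
    have hZcard : (2 * a (m + 1) - 1) * A.card ≤ (Z.card : ℝ) := by
      have h1 := ha x hx (m + 1)
      have h2 := hl y hy
      rw [le_div_iff₀ hn] at h1 h2
      have h3 : (chain A θ x (m + 1)).card + (last A θ y m).card ≤ Z.card + A.card := by
        rw [hZ, ← Finset.card_inter_add_card_union]
        apply Nat.add_le_add_left
        apply Finset.card_le_card
        exact Finset.union_subset (chain_subset hx _) (last_subset _)
      have h3' : ((chain A θ x (m + 1)).card : ℝ) + (last A θ y m).card ≤ Z.card + A.card := by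
        exact_mod_cast h3
      linarith
    have h1 := conv_step A (sm A) m (m + 1) Z x (x + y)
    have e : ∀ z, z + (x + y - x) = z + y := by intro z; abel
    simp_rw [e] at h1
    calc P ^ 2 * ((2 * a (m + 1) - 1) * A.card) ≤ P ^ 2 * (Z.card : ℝ) :=
          mul_le_mul_of_nonneg_left hZcard (by positivity)
      _ = ∑ z ∈ Z, P * P := by rw [Finset.sum_const]; simp; ring
      _ ≤ ∑ z ∈ Z, (walk A dl (m + 1) (x - z) : ℝ) * (walk A (sm A) m (z + y) : ℝ) := by
          apply Finset.sum_le_sum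
          intro z hz
          rw [hZ, Finset.mem_inter] at hz
          have h2 := chain_path hθ a ha0 (ha x hx) (m + 1) z hz.1
          have h3 := last_path hθ a ha0 (ha y hy) m z hz.2
          rw [← hP] at h2 h3
          exact mul_le_mul h2 h3 hP0 (by positivity)
      _ ≤ _ := by exact_mod_cast h1
  have hmass := walk_mass A (sm A) (A.card ^ 2) (sm_mass A) (m + 1 + m) (A + A)
  calc (((A + A).card : ℝ)) * (P ^ 2 * ((2 * a (m + 1) - 1) * A.card))
      = ∑ g ∈ A + A, P ^ 2 * ((2 * a (m + 1) - 1) * A.card) := by rw [Finset.sum_const]; simp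
    _ ≤ ∑ g ∈ A + A, (walk A (sm A) (m + 1 + m) g : ℝ) := Finset.sum_le_sum key
    _ ≤ ((A.card ^ 2 * A.card ^ (2 * (m + 1 + m)) : ℕ) : ℝ) := by exact_mod_cast hmass
    _ = (A.card : ℝ) ^ (2 + 2 * (2 * m + 1)) := by
        push_cast
        rw [← pow_add]
        congr 1
        ring

end Pool.Agent.BSGEnergy
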