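import Mathlib
import Pool.Agent.BSGEnergy.Chain

/-!
# The three regimes
-/

namespace Pool.Agent.BSGEnergy

open Finset

variable {G : Type*} [AddCommGroup G] [DecidableEq G]

/-! ### Densities in the chains -/

lemma chain_first {A : Finset G} (hA : A.Nonempty) {c ε : ℝ} (hc : 0 < c) (hε : 0 < ε)
    (hε1 : ε < 1) (hdeg : ∀ z ∈ A, c * ((energy A : ℝ) / A.card) ≤ deg A z) {x : G} (hx : x ∈ A) :
    (1 - ε) * c * ((energy A : ℝ) / (A.card : ℝ) ^ 3) ≤
      ((chain A (ε * c) x 1).card : ℝ) / A.card := by
  have hn : (0:ℝ) < A.card := by exact_mod_cast hA.card_pos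
  have hE : (0:ℝ) < energy A := by exact_mod_cast energy_pos hA
  obtain ⟨Y, hY⟩ : ∃ Y, Y = chain A (ε * c) x 1 := ⟨_, rfl⟩
  obtain ⟨thr, hthr⟩ : ∃ thr : ℝ, thr = ε * c * ((energy A : ℝ) / A.card) * (((chain A (ε * c) x 0).card : ℝ) / A.card) :=
    ⟨_, rfl⟩
  have hthr0 : 0 ≤ thr := by rw [hthr]; positivity
  have hY' : Y = A.filter (fun y => thr ≤ (quad {y} A {x} A : ℝ)) := by
    rw [hY, hthr]; rfl
  rw [← hY]
  have hsum : c * ((energy A : ℝ) / A.card) ≤ ∑ y ∈ A, (quad {y} A {x} A : ℝ) := by
    have h1 := hdeg x hx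
    have h2 : ∑ y ∈ A, quad {y} A {x} A = deg A x := by
      rw [sum_quad_single, quad_AASA, Finset.sum_singleton]
    rw [← h2] at h1
    exact_mod_cast h1
  have e : (∑ y ∈ A, (quad {y} A {x} A : ℝ)) = (∑ y ∈ Y, (quad {y} A {x} A : ℝ)) +
      ∑ y ∈ A.filter (fun y => ¬ thr ≤ (quad {y} A {x} A : ℝ)), (quad {y} A {x} A : ℝ) := by
    rw [hY', Finset.sum_filter_add_sum_filter_not]
  have h3 : ∑ y ∈ A.filter (fun y => ¬ thr ≤ (quad {y} A {x} A : ℝ)), (quad {y} A {x} A : ℝ) ≤
      A.card * thr := by
    calc _ ≤ ∑ y ∈ A.filter (fun y => ¬ thr ≤ (quad {y} A {x} A : ℝ)), thr := by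
          apply Finset.sum_le_sum
          intro y hy
          have := (Finset.mem_filter.mp hy).2
          push Not at this
          exact this.le
      _ = ((A.filter (fun y => ¬ thr ≤ (quad {y} A {x} A : ℝ))).card : ℝ) * thr := by simp
      _ ≤ A.card * thr := by
          gcongr
          exact Finset.filter_subset _ _
  have h4 : ∑ y ∈ Y, (quad {y} A {x} A : ℝ) ≤ Y.card * A.card := by
    calc _ ≤ ∑ y ∈ Y, (A.card : ℝ) := by
          apply Finset.sum_le_sum
          intro y _
          exact_mod_cast quad_single_le A y x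
      _ = _ := by simp
  have h5 : (A.card : ℝ) * thr = ε * (c * ((energy A : ℝ) / A.card)) := by
    rw [hthr]
    simp only [chain, Finset.card_singleton]
    field_simp
    simp
  rw [h5] at h3
  have h6 : (1 - ε) * (c * ((energy A : ℝ) / A.card)) ≤ Y.card * A.card := by linarith
  rw [le_div_iff₀ hn]
  have h7 : (1 - ε) * c * ((energy A : ℝ) / (A.card : ℝ) ^ 3) * A.card =
      (1 - ε) * (c * ((energy A : ℝ) / A.card)) / A.card := by
    field_simp
  rw [h7, div_le_iff₀ hn]
  exact h6

lemma chain_growth {A : Finset G} (hext : Extremal A) {c ε : ℝ} (hc : 0 < c) (hε : 0 < ε)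
    (hε1 : ε < 1) (hdeg : ∀ z ∈ A, c * ((energy A : ℝ) / A.card) ≤ deg A z) {x : G} (hx : x ∈ A)
    (j : ℕ) (hne : (chain A (ε * c) x j).Nonempty) :
    ((1 - ε) * c) ^ 400 * (((chain A (ε * c) x j).card : ℝ) / A.card) ^ 101 ≤
      (((chain A (ε * c) x (j + 1)).card : ℝ) / A.card) ^ 299 := by
  apply growth hext (chain_subset hx j) hne (fun y => quad {y} A (chain A (ε * c) x j) A) hc hε hε1
  · rw [sum_quad_single, quad_AASA]
    push_cast
    calc c * ((energy A : ℝ) / A.card) * (chain A (ε * c) x j).card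
        = ∑ z ∈ chain A (ε * c) x j, c * ((energy A : ℝ) / A.card) := by
          rw [Finset.sum_const]; simp; ring
      _ ≤ _ := Finset.sum_le_sum (fun z hz => hdeg z (chain_subset hx j hz))
  · intro Y _
    rw [sum_quad_single]
    refine (quad_pow_le _ _ _ _).trans (le_of_eq ?_)
    ring

lemma last_growth {A : Finset G} (hext : Extremal A) {c ε : ℝ} (hc : 0 < c) (hε : 0 < ε)
    (hε1 : ε < 1) (hdeg : ∀ z ∈ A, c * ((energy A : ℝ) / A.card) ≤ deg A z) {x : G} (hx : x ∈ A)
    (j : ℕ) (hne : (chain A (ε * c) x j).Nonempty) :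
    ((1 - ε) * c) ^ 400 * (((chain A (ε * c) x j).card : ℝ) / A.card) ^ 101 ≤
      (((last A (ε * c) x j).card : ℝ) / A.card) ^ 299 := by
  apply growth hext (chain_subset hx j) hne (fun y => quad {y} (chain A (ε * c) x j) A A) hc hε hε1
  · rw [sum_quad_single, quad_ASAA]
    push_cast
    calc c * ((energy A : ℝ) / A.card) * (chain A (ε * c) x j).card
        = ∑ z ∈ chain A (ε * c) x j, c * ((energy A : ℝ) / A.card) := by
          rw [Finset.sum_const]; simp; ring
      _ ≤ _ := Finset.sum_le_sum (fun z hz => hdeg z (chain_subset hx j hz))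
  · intro Y _
    rw [sum_quad_single]
    refine (quad_pow_le _ _ _ _).trans (le_of_eq ?_)
    ring

/-! ### Large degrees -/

open Pointwise in
/-- If all degrees exceed `ρ n²` with `ρ > 1/2` then `|A + A| ≤ n / (2 ρ - 1)`. -/
lemma two_step {A : Finset G} (hA : A.Nonempty) {ρ : ℝ}
    (hdeg : ∀ z ∈ A, ρ * (A.card : ℝ) ^ 2 ≤ deg A z) :
    ((A + A).card : ℝ) * (2 * ρ - 1) ≤ A.card := by
  have hn : (0:ℝ) < A.card := by exact_mod_cast hA.card_pos
  have key : ∀ g ∈ A + A, (2 * ρ - 1) * (A.card : ℝ) ^ 3 ≤ (walk A (sm A) 1 g : ℝ) := by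
    intro g hg
    obtain ⟨x, hx, y, hy, rfl⟩ := Finset.mem_add.mp hg
    have h1 := conv_step A (sm A) 0 1 A x (x + y)
    have e : ∀ z, z + (x + y - x) = z + y := by intro z; abel
    simp_rw [e] at h1
    have hu : ∀ z, (walk A dl 1 (x - z) : ℝ) ≤ A.card := by
      intro z
      have h : walk A dl 1 (x - z) = ∑ w ∈ ({x} : Finset G), walk A dl 1 (w - z) := by simp
      rw [h, walk_one]
      exact_mod_cast quad_single_le A z x
    have hv : ∀ z, (walk A (sm A) 0 (z + y) : ℝ) ≤ A.card := by
      intro z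
      simp only [walk, sm]
      have : ∑ a ∈ A, ∑ b ∈ A, (if z + y = a + b then 1 else 0) ≤ A.card := by
        calc _ ≤ ∑ a ∈ A, 1 := by
              apply Finset.sum_le_sum
              intro a _
              rw [← Finset.card_filter]
              apply Finset.card_le_one.mpr
              intro b hb c hc
              have h1 := (Finset.mem_filter.mp hb).2
              have h2 := (Finset.mem_filter.mp hc).2
              exact add_left_cancel (h1.symm.trans h2)
          _ = _ := by simp
      exact_mod_cast this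
    have hus : ∑ z ∈ A, walk A dl 1 (x - z) = deg A x := by
      have h : ∀ z ∈ A, walk A dl 1 (x - z) = quad {z} A {x} A := by
        intro z _
        rw [← walk_one]; simp
      rw [Finset.sum_congr rfl h, sum_quad_single, quad_AASA, Finset.sum_singleton]
    have hvs : ∑ z ∈ A, walk A (sm A) 0 (z + y) = deg A y := by
      rw [sm_sum, ← deg_eq]
    have hdx := hdeg x hx
    have hdy := hdeg y hy
    rw [← hus] at hdx
    rw [← hvs] at hdy
    push_cast at hdx hdy
    calc (2 * ρ - 1) * (A.card : ℝ) ^ 3 = A.card * (ρ * (A.card : ℝ) ^ 2 + ρ * (A.card : ℝ) ^ 2 -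
          A.card * A.card) := by ring
      _ ≤ A.card * ((∑ z ∈ A, (walk A dl 1 (x - z) : ℝ)) + (∑ z ∈ A, (walk A (sm A) 0 (z + y) : ℝ)) -
          A.card * A.card) := by
          apply mul_le_mul_of_nonneg_left _ hn.le
          linarith
      _ = ∑ z ∈ A, A.card * ((walk A dl 1 (x - z) : ℝ) + (walk A (sm A) 0 (z + y) : ℝ) - A.card) := by
          rw [← Finset.mul_sum, Finset.sum_sub_distrib, Finset.sum_add_distrib]
          simp
      _ ≤ ∑ z ∈ A, (walk A dl 1 (x - z) : ℝ) * (walk A (sm A) 0 (z + y) : ℝ) := by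
          apply Finset.sum_le_sum
          intro z _
          nlinarith [hu z, hv z, mul_nonneg (sub_nonneg.mpr (hu z)) (sub_nonneg.mpr (hv z))]
      _ ≤ _ := by exact_mod_cast h1
  have hmass := walk_mass A (sm A) (A.card ^ 2) (sm_mass A) 1 (A + A)
  have h2 : ((A + A).card : ℝ) * ((2 * ρ - 1) * (A.card : ℝ) ^ 3) ≤ (A.card : ℝ) ^ 4 := by
    calc ((A + A).card : ℝ) * ((2 * ρ - 1) * (A.card : ℝ) ^ 3)
        = ∑ g ∈ A + A, (2 * ρ - 1) * (A.card : ℝ) ^ 3 := by rw [Finset.sum_const]; simp
      _ ≤ ∑ g ∈ A + A, (walk A (sm A) 1 g : ℝ) := Finset.sum_le_sum key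
      _ ≤ ((A.card ^ 2 * A.card ^ (2 * 1) : ℕ) : ℝ) := by exact_mod_cast hmass
      _ = (A.card : ℝ) ^ 4 := by push_cast; ring
  have h3 : ((A + A).card : ℝ) * (2 * ρ - 1) * (A.card : ℝ) ^ 3 ≤ A.card * (A.card : ℝ) ^ 3 := by
    calc _ = ((A + A).card : ℝ) * ((2 * ρ - 1) * (A.card : ℝ) ^ 3) := by ring
      _ ≤ _ := h2
      _ = _ := by ring
  exact le_of_mul_le_mul_right h3 (by positivity)

/-! ### Energy close to the maximum -/

/-- number of `a ∈ A` with `a - d ∈ A` -/
def rr (A : Finset G) (d : G) : ℕ := (A.filter (fun a => a - d ∈ A)).card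

lemma rr_le (A : Finset G) (d : G) : rr A d ≤ A.card := Finset.card_filter_le _ _

lemma rr_zero (A : Finset G) : rr A 0 = A.card := by
  unfold rr; simp

lemma rr_neg (A : Finset G) (d : G) : rr A (-d) = rr A d := by
  unfold rr
  apply Finset.card_nbij' (fun a => a + d) (fun a => a - d)
  · intro a ha
    simp only [coe_filter, Set.mem_ofPred_eq] at ha ⊢
    refine ⟨by simpa using ha.2, by simpa using ha.1⟩
  · intro a ha
    simp only [coe_filter, Set.mem_ofPred_eq] at ha ⊢
    refine ⟨ha.2, by simpa using ha.1⟩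
  · intro a _; simp
  · intro a _; simp

lemma rr_add (A : Finset G) (d e : G) : rr A d + rr A e ≤ rr A (d + e) + A.card := by
  classical
  obtain ⟨U, hU⟩ : ∃ U, U = (A.filter (fun a => a - d ∈ A)).image (fun a => a - d) := ⟨_, rfl⟩
  obtain ⟨V, hV⟩ : ∃ V, V = A.filter (fun a => a - e ∈ A) := ⟨_, rfl⟩
  have hUc : U.card = rr A d := by
    rw [hU, Finset.card_image_of_injective]; rfl
    intro a b h; simpa using h
  have hVc : V.card = rr A e := by rw [hV]; rfl
  have hUA : U ⊆ A := by
    intro b hb
    rw [hU, Finset.mem_image] at hb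
    obtain ⟨a, ha, rfl⟩ := hb
    exact (Finset.mem_filter.mp ha).2
  have hVA : V ⊆ A := by rw [hV]; exact Finset.filter_subset _ _
  have h1 : U.card + V.card ≤ (U ∩ V).card + A.card := by
    rw [← Finset.card_inter_add_card_union]
    exact Nat.add_le_add_left (Finset.card_le_card (Finset.union_subset hUA hVA)) _
  have h2 : (U ∩ V).card ≤ rr A (d + e) := by
    unfold rr
    apply Finset.card_le_card_of_injOn (fun b => b + d)
    · intro b hb
      rw [Finset.mem_coe, Finset.mem_inter, hU, hV, Finset.mem_image, Finset.mem_filter] at hb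
      obtain ⟨⟨a, ha, rfl⟩, hb1, hb2⟩ := hb
      rw [Finset.mem_filter] at ha
      simp only [coe_filter, Set.mem_ofPred_eq, sub_add_cancel]
      refine ⟨ha.1, ?_⟩
      rwa [← sub_sub]
    · intro a _ b _ h
      simpa using h
  omega

lemma energy_eq_rr (A : Finset G) : energy A = ∑ a ∈ A, ∑ b ∈ A, rr A (a - b) := by
  rw [energy_eq]
  unfold quad
  apply Finset.sum_congr rfl
  intro a _
  rw [Finset.sum_comm]
  apply Finset.sum_congr rfl
  intro b _
  rw [← neg_sub, rr_neg]
  unfold rr
  rw [Finset.card_filter]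
  apply Finset.sum_congr rfl
  intro d _
  have : ∀ w, (a + d = b + w) ↔ (w = d - (b - a)) := by
    intro w
    constructor
    · intro h
      have : w = a + d - b := by rw [h]; abel
      rw [this]; abel
    · rintro rfl; abel
  simp_rw [this]
  rw [Finset.sum_ite_eq']

/-- averaging: few pairs have an unpopular difference -/
lemma bad_pairs {A : Finset G} (hA : A.Nonempty) {η t : ℝ} (ht : 0 < t)
    (hE : (1 - η) * (A.card : ℝ) ^ 3 ≤ energy A) :
    (((A ×ˢ A).filter (fun p => ¬ (1 - t) * (A.card : ℝ) ≤ (rr A (p.1 - p.2) : ℝ))).card : ℝ) ≤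
      η / t * (A.card : ℝ) ^ 2 := by
  have hn : (0:ℝ) < A.card := by exact_mod_cast hA.card_pos
  rw [energy_eq_rr, ← Finset.sum_product'] at hE
  push_cast at hE
  have h1 : ∑ p ∈ A ×ˢ A, ((A.card : ℝ) - rr A (p.1 - p.2)) ≤ η * (A.card : ℝ) ^ 3 := by
    rw [Finset.sum_sub_distrib, Finset.sum_const, Finset.card_product]
    simp only [nsmul_eq_mul]
    push_cast
    linarith
  have h2 : (((A ×ˢ A).filter (fun p => ¬ (1 - t) * (A.card : ℝ) ≤ (rr A (p.1 - p.2) : ℝ))).card : ℝ)
      * (t * A.card) ≤ ∑ p ∈ A ×ˢ A, ((A.card : ℝ) - rr A (p.1 - p.2)) := by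
    calc _ = ∑ p ∈ (A ×ˢ A).filter (fun p => ¬ (1 - t) * (A.card : ℝ) ≤ (rr A (p.1 - p.2) : ℝ)),
          (t * A.card) := by rw [Finset.sum_const]; simp
      _ ≤ ∑ p ∈ (A ×ˢ A).filter (fun p => ¬ (1 - t) * (A.card : ℝ) ≤ (rr A (p.1 - p.2) : ℝ)),
          ((A.card : ℝ) - rr A (p.1 - p.2)) := by
          apply Finset.sum_le_sum
          intro p hp
          have := (Finset.mem_filter.mp hp).2
          push Not at this
          linarith
      _ ≤ _ := by
          apply Finset.sum_le_sum_of_subset_of_nonneg (Finset.filter_subset _ _)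
          intro p _ _
          have : (rr A (p.1 - p.2) : ℝ) ≤ A.card := by exact_mod_cast rr_le A _
          linarith
  have h3 := h2.trans h1
  rw [div_mul_eq_mul_div, le_div_iff₀ ht]
  have h4 : (((A ×ˢ A).filter (fun p => ¬ (1 - t) * (A.card : ℝ) ≤ (rr A (p.1 - p.2) : ℝ))).card : ℝ)
      * t * A.card ≤ η * (A.card : ℝ) ^ 2 * A.card := by
    calc _ = _ := by ring
      _ ≤ _ := h3
      _ = _ := by ring
  exact le_of_mul_le_mul_right h4 hn

/-- the set of `d` with `rr A d ≥ (1 - t) |A|`, inside `A - A` -/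
noncomputable def pop (A : Finset G) (t : ℝ) : Finset G :=
  ((A ×ˢ A).image (fun p => p.1 - p.2)).filter (fun d => (1 - t) * (A.card : ℝ) ≤ (rr A d : ℝ))

lemma mem_pop {A : Finset G} (hA : A.Nonempty) {t : ℝ} (ht : t < 1) {d : G} :
    d ∈ pop A t ↔ (1 - t) * (A.card : ℝ) ≤ (rr A d : ℝ) := by
  have hn : (0:ℝ) < A.card := by exact_mod_cast hA.card_pos
  unfold pop
  rw [Finset.mem_filter]
  constructor
  · exact fun h => h.2
  · intro h
    refine ⟨?_, h⟩
    have h1 : (0:ℝ) < rr A d := lt_of_lt_of_le (mul_pos (by linarith) hn) h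
    have h2 : 0 < rr A d := by exact_mod_cast h1
    obtain ⟨a, ha⟩ := Finset.card_pos.mp h2
    rw [Finset.mem_filter] at ha
    rw [Finset.mem_image]
    exact ⟨(a, a - d), by simp [ha.1, ha.2], by simp⟩

lemma sum_rr_eq (A D : Finset G) :
    ∑ d ∈ D, rr A d = ((A ×ˢ A).filter (fun p => p.1 - p.2 ∈ D)).card := by
  rw [Finset.card_eq_sum_card_fiberwise (f := fun p : G × G => p.1 - p.2) (t := D)]
  · apply Finset.sum_congr rfl
    intro d hd
    unfold rr
    apply Finset.card_nbij' (fun a => (a, a - d)) (fun p => p.1)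
    · intro a ha
      simp only [coe_filter, Set.mem_ofPred_eq] at ha ⊢
      simp [ha.1, ha.2, hd]
    · intro p hp
      simp only [coe_filter, Set.mem_ofPred_eq, Finset.mem_filter, Finset.mem_product] at hp ⊢
      obtain ⟨⟨⟨h1, h2⟩, h3⟩, h4⟩ := hp
      refine ⟨h1, ?_⟩
      rw [← h4]; simpa using h2
    · intro a _; rfl
    · intro p hp
      simp only [coe_filter, Set.mem_ofPred_eq, Finset.mem_filter, Finset.mem_product] at hp
      obtain ⟨⟨⟨h1, h2⟩, h3⟩, h4⟩ := hp
      ext
      · rfl
      · simp only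
        rw [← h4]; simp
  · intro p hp
    exact (Finset.mem_filter.mp hp).2

lemma pop_card_upper {A : Finset G} (hA : A.Nonempty) {t : ℝ} :
    ((pop A t).card : ℝ) * (1 - t) ≤ A.card := by
  have hn : (0:ℝ) < A.card := by exact_mod_cast hA.card_pos
  have h1 : ((pop A t).card : ℝ) * ((1 - t) * A.card) ≤ (A.card : ℝ) ^ 2 := by
    calc _ = ∑ d ∈ pop A t, ((1 - t) * (A.card : ℝ)) := by rw [Finset.sum_const]; simp
      _ ≤ ∑ d ∈ pop A t, (rr A d : ℝ) := by
          apply Finset.sum_le_sum
          intro d hd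
          exact (Finset.mem_filter.mp hd).2
      _ ≤ ((A ×ˢ A).card : ℝ) := by
          have := sum_rr_eq A (pop A t)
          have h2 : ((A ×ˢ A).filter (fun p => p.1 - p.2 ∈ pop A t)).card ≤ (A ×ˢ A).card :=
            Finset.card_filter_le _ _
          rw [← this] at h2
          exact_mod_cast h2
      _ = _ := by rw [Finset.card_product]; push_cast; ring
  have h2 : ((pop A t).card : ℝ) * (1 - t) * A.card ≤ A.card * A.card := by
    calc _ = _ := by ring
      _ ≤ _ := h1
      _ = _ := by ring
  exact le_of_mul_le_mul_right h2 hn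

lemma pop_card_lower {A : Finset G} (hA : A.Nonempty) {η t : ℝ} (ht : 0 < t)
    (hE : (1 - η) * (A.card : ℝ) ^ 3 ≤ energy A) :
    (1 - η / t) * A.card ≤ ((pop A t).card : ℝ) := by
  have hn : (0:ℝ) < A.card := by exact_mod_cast hA.card_pos
  have h1 := bad_pairs hA ht hE
  have h2 : ((A ×ˢ A).filter (fun p => p.1 - p.2 ∈ pop A t)).card +
      ((A ×ˢ A).filter (fun p => ¬ (1 - t) * (A.card : ℝ) ≤ (rr A (p.1 - p.2) : ℝ))).card =
      A.card ^ 2 := by
    have e : (A ×ˢ A).filter (fun p => p.1 - p.2 ∈ pop A t) =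
        (A ×ˢ A).filter (fun p => (1 - t) * (A.card : ℝ) ≤ (rr A (p.1 - p.2) : ℝ)) := by
      apply Finset.filter_congr
      intro p hp
      unfold pop
      rw [Finset.mem_filter]
      constructor
      · exact fun h => h.2
      · intro h
        exact ⟨Finset.mem_image_of_mem _ hp, h⟩
    rw [e, Finset.card_filter_add_card_filter_not, Finset.card_product, sq]
  have h3 : (((A ×ˢ A).filter (fun p => p.1 - p.2 ∈ pop A t)).card : ℝ) ≤ (pop A t).card * A.card := by
    rw [← sum_rr_eq]
    push_cast
    calc _ ≤ ∑ d ∈ pop A t, (A.card : ℝ) := by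
          apply Finset.sum_le_sum
          intro d _
          exact_mod_cast rr_le A d
      _ = _ := by simp
  have h2' : (((A ×ˢ A).filter (fun p => p.1 - p.2 ∈ pop A t)).card : ℝ) +
      (((A ×ˢ A).filter (fun p => ¬ (1 - t) * (A.card : ℝ) ≤ (rr A (p.1 - p.2) : ℝ))).card : ℝ) =
      (A.card : ℝ) ^ 2 := by exact_mod_cast h2
  have h4 : (1 - η / t) * A.card * A.card ≤ (pop A t).card * A.card := by
    calc (1 - η / t) * A.card * A.card = (A.card : ℝ) ^ 2 - η / t * (A.card : ℝ) ^ 2 := by ring
      _ ≤ _ := by linarith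
  exact le_of_mul_le_mul_right h4 hn

open Pointwise in
/-- The 99 percent regime. -/
lemma near_max {A : Finset G} (hA : A.Nonempty) {η t : ℝ} (ht : 0 < t) (ht1 : 5 * t < 1)
    (hη : 0 ≤ η)
    (hE : (1 - η) * (A.card : ℝ) ^ 3 ≤ energy A)
    (hjump : 1 < 2 * (1 - η / t) * (1 - 5 * t))
    (hdeg : ∀ z ∈ A, 299 / 400 * (1 - 1 / (A.card : ℝ)) * ((energy A : ℝ) / A.card) ≤ deg A z)
    (hδ1 : η / (2 * t) < 1)
    (hδ : 3 * (η / (2 * t)) < 299 / 400 * (1 - η / (2 * t)) * (1 - η)) :
    ((A + A).card : ℝ) * (1 - 2 * t) ≤ A.card := by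
  have hn : (0:ℝ) < A.card := by exact_mod_cast hA.card_pos
  have hηt : η / t < 1 := by
    by_contra hcon
    push Not at hcon
    have : (1 - η / t) * (1 - 5 * t) ≤ 0 := mul_nonpos_of_nonpos_of_nonneg (by linarith) (by linarith)
    linarith
  -- the jump
  have jump : ∀ d, (1 - 4 * t) * (A.card : ℝ) ≤ rr A d → (1 - 2 * t) * (A.card : ℝ) ≤ rr A d := by
    intro d hd
    have hadd : ∀ e ∈ pop A t, d + e ∈ pop A (5 * t) := by
      intro e he
      rw [mem_pop hA (by linarith)] at he
      rw [mem_pop hA ht1]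
      have := rr_add A d e
      have h' : (rr A d : ℝ) + rr A e ≤ rr A (d + e) + A.card := by exact_mod_cast this
      linarith
    have hsub : ∀ e ∈ pop A t, e ∈ pop A (5 * t) := by
      intro e he
      rw [mem_pop hA (by linarith)] at he
      rw [mem_pop hA ht1]
      nlinarith
    obtain ⟨W, hW⟩ : ∃ W, W = (pop A t).image (fun e => d + e) := ⟨_, rfl⟩
    have hWc : W.card = (pop A t).card := by
      rw [hW, Finset.card_image_of_injective]
      intro a b h; simpa using h
    have hinter : (pop A t ∩ W).Nonempty := by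
      rw [Finset.nonempty_iff_ne_empty]
      intro hempty
      have hcard : (pop A t).card + W.card ≤ (pop A (5 * t)).card := by
        rw [← Finset.card_union_of_disjoint (Finset.disjoint_iff_inter_eq_empty.mpr hempty)]
        apply Finset.card_le_card
        apply Finset.union_subset
        · exact fun e he => hsub e he
        · intro f hf
          rw [hW, Finset.mem_image] at hf
          obtain ⟨e, he, rfl⟩ := hf
          exact hadd e he
      rw [hWc] at hcard
      have hcard' : (2:ℝ) * (pop A t).card ≤ (pop A (5 * t)).card := by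
        have : 2 * (pop A t).card ≤ (pop A (5 * t)).card := by omega
        exact_mod_cast this
      have hl := pop_card_lower hA ht hE
      have hu := pop_card_upper hA (t := 5 * t)
      have h1 : 2 * (1 - η / t) * (1 - 5 * t) * A.card ≤ A.card := by
        calc 2 * (1 - η / t) * (1 - 5 * t) * A.card = 2 * ((1 - η / t) * A.card) * (1 - 5 * t) := by ring
          _ ≤ 2 * (pop A t).card * (1 - 5 * t) := by
              apply mul_le_mul_of_nonneg_right _ (by linarith)
              linarith
          _ ≤ (pop A (5 * t)).card * (1 - 5 * t) :=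
              mul_le_mul_of_nonneg_right hcard' (by linarith)
          _ ≤ _ := hu
      nlinarith
    obtain ⟨f, hf⟩ := hinter
    rw [Finset.mem_inter, hW, Finset.mem_image] at hf
    obtain ⟨hf1, e, he, hef⟩ := hf
    rw [mem_pop hA (by linarith)] at hf1 he
    have h1 := rr_add A f (-e)
    rw [rr_neg] at h1
    have h1' : (rr A f : ℝ) + rr A e ≤ rr A (f + -e) + A.card := by exact_mod_cast h1
    have hd' : f + -e = d := by rw [← hef]; abel
    rw [hd'] at h1'
    linarith
  -- closure
  have hclose : ∀ d e, (1 - 2 * t) * (A.card : ℝ) ≤ rr A d → (1 - 2 * t) * (A.card : ℝ) ≤ rr A e →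
      (1 - 2 * t) * (A.card : ℝ) ≤ rr A (d + e) := by
    intro d e hd he
    apply jump
    have h1 := rr_add A d e
    have h1' : (rr A d : ℝ) + rr A e ≤ rr A (d + e) + A.card := by exact_mod_cast h1
    linarith
  have hnegc : ∀ d, (1 - 2 * t) * (A.card : ℝ) ≤ rr A d → (1 - 2 * t) * (A.card : ℝ) ≤ rr A (-d) := by
    intro d hd; rwa [rr_neg]
  -- a good base point
  have hbad := bad_pairs hA (t := 2 * t) (by linarith) hE
  have hbase : ∃ a₀ ∈ A, ((A.filter (fun b => ¬ (1 - 2 * t) * (A.card : ℝ) ≤ (rr A (a₀ - b) : ℝ))).card : ℝ)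
      ≤ η / (2 * t) * A.card := by
    by_contra hcon
    push Not at hcon
    have h1 : ∑ a ∈ A, (η / (2 * t) * (A.card : ℝ)) <
        ∑ a ∈ A, ((A.filter (fun b => ¬ (1 - 2 * t) * (A.card : ℝ) ≤ (rr A (a - b) : ℝ))).card : ℝ) :=
      Finset.sum_lt_sum_of_nonempty hA (fun a ha => by simpa only [not_le] using hcon a ha)
    have h2 : ((A ×ˢ A).filter (fun p => ¬ (1 - 2 * t) * (A.card : ℝ) ≤ (rr A (p.1 - p.2) : ℝ))).card =
        ∑ a ∈ A, (A.filter (fun b => ¬ (1 - 2 * t) * (A.card : ℝ) ≤ (rr A (a - b) : ℝ))).card := by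
      rw [Finset.card_filter, Finset.sum_product]
      apply Finset.sum_congr rfl
      intro a _
      rw [Finset.card_filter]
    rw [h2] at hbad
    push_cast at hbad
    rw [Finset.sum_const, nsmul_eq_mul] at h1
    nlinarith
  obtain ⟨a₀, ha₀, hOut⟩ := hbase
  obtain ⟨O, hO⟩ : ∃ O, O = A.filter (fun b => ¬ (1 - 2 * t) * (A.card : ℝ) ≤ (rr A (a₀ - b) : ℝ)) :=
    ⟨_, rfl⟩
  rw [← hO] at hOut
  have hOA : O ⊆ A := by rw [hO]; exact Finset.filter_subset _ _
  -- the exceptional set is empty
  have hOempty : O = ∅ := by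
    by_contra hne
    obtain ⟨x, hx⟩ := Finset.nonempty_iff_ne_empty.mpr hne
    have hxA := hOA hx
    have hO1 : (1:ℝ) ≤ O.card := by exact_mod_cast Finset.card_pos.mpr ⟨x, hx⟩
    have hdx := hdeg x hxA
    have h1 : deg A x ≤ 3 * (O.card * A.card) := by
      have hb1 : ∀ U V : Finset G, quad {x} U V A ≤ U.card * V.card := by
        intro U V
        unfold quad
        simp only [Finset.sum_singleton]
        calc _ ≤ ∑ b ∈ U, ∑ c ∈ V, 1 := by
              apply Finset.sum_le_sum; intro b _
              apply Finset.sum_le_sum; intro c _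
              rw [← Finset.card_filter]
              apply Finset.card_le_one.mpr
              intro d hd e he
              have h1 := (Finset.mem_filter.mp hd).2
              have h2 := (Finset.mem_filter.mp he).2
              exact add_left_cancel (h1.symm.trans h2)
          _ = _ := by simp
      have hb2 : ∀ U V : Finset G, quad {x} A U V ≤ U.card * V.card := by
        intro U V
        unfold quad
        simp only [Finset.sum_singleton]
        rw [Finset.sum_comm]
        simp_rw [Finset.sum_comm (s := A)]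
        calc _ ≤ ∑ b ∈ U, ∑ c ∈ V, 1 := by
              apply Finset.sum_le_sum; intro b _
              apply Finset.sum_le_sum; intro c _
              rw [← Finset.card_filter]
              apply Finset.card_le_one.mpr
              intro d hd e he
              have h1 := (Finset.mem_filter.mp hd).2
              have h2 := (Finset.mem_filter.mp he).2
              exact add_left_cancel (h1.trans h2.symm)
          _ = _ := by simp
      have hdecomp : deg A x ≤ quad {x} O A A + quad {x} A O A + quad {x} A A O := by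
        unfold deg quad
        simp only [Finset.sum_singleton]
        have e1 : ∀ f : G → ℕ, ∑ b ∈ O, f b = ∑ b ∈ A, if b ∈ O then f b else 0 := by
          intro f
          rw [← Finset.sum_filter]
          congr 1
          ext b
          simp only [Finset.mem_filter]
          exact ⟨fun h => ⟨hOA h, h⟩, fun h => h.2⟩
        simp_rw [e1]
        rw [← Finset.sum_add_distrib, ← Finset.sum_add_distrib]
        apply Finset.sum_le_sum
        intro b hb
        by_cases hbO : b ∈ O
        · simp only [hbO, if_true]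
          omega
        · simp only [hbO, if_false, zero_add]
          rw [← Finset.sum_add_distrib]
          apply Finset.sum_le_sum
          intro c hc
          by_cases hcO : c ∈ O
          · simp only [hcO, if_true]
            omega
          · simp only [hcO, if_false, zero_add]
            apply Finset.sum_le_sum
            intro d hd
            by_cases hdO : d ∈ O
            · simp only [hdO, if_true]
              exact le_rfl
            · simp only [hdO, if_false]
              split_ifs with hxb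
              · exfalso
                rw [hO, Finset.mem_filter] at hx hbO hcO hdO
                push Not at hbO hcO hdO
                apply hx.2
                have hb' := hbO hb
                have hc' := hcO hc
                have hd' := hdO hd
                have e2 : a₀ - x = ((a₀ - c) + (a₀ - d)) + -(a₀ - b) := by
                  have : x = c + d - b := by rw [← hxb]; abel
                  rw [this]; abel
                rw [e2]
                exact hclose _ _ (hclose _ _ hc' hd') (hnegc _ hb')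
              · exact le_rfl
      have h11 := hb1 O A
      have h12 := hb1 A O
      have h13 := hb2 A O
      rw [mul_comm] at h12 h13
      omega
    have h1' : (deg A x : ℝ) ≤ 3 * (O.card * A.card) := by exact_mod_cast h1
    have h2 : 299 / 400 * (1 - 1 / (A.card : ℝ)) * ((1 - η) * (A.card : ℝ) ^ 2) ≤
        3 * (η / (2 * t) * A.card * A.card) := by
      have e1 : (1 - η) * (A.card : ℝ) ^ 2 ≤ (energy A : ℝ) / A.card := by
        rw [le_div_iff₀ hn]
        calc _ = _ := by ring
          _ ≤ _ := hE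
      have e2 : 0 ≤ 299 / 400 * (1 - 1 / (A.card : ℝ)) := by
        have : 1 / (A.card : ℝ) ≤ 1 := by
          rw [div_le_one hn]
          exact_mod_cast hA.card_pos
        linarith
      calc _ ≤ 299 / 400 * (1 - 1 / (A.card : ℝ)) * ((energy A : ℝ) / A.card) :=
            mul_le_mul_of_nonneg_left e1 e2
        _ ≤ deg A x := hdx
        _ ≤ 3 * (O.card * A.card) := h1'
        _ ≤ _ := by
          have := mul_le_mul_of_nonneg_right hOut hn.le
          linarith
    have h3 : 299 / 400 * (1 - 1 / (A.card : ℝ)) * (1 - η) ≤ 3 * (η / (2 * t)) := by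
      have h4 : (299 / 400 * (1 - 1 / (A.card : ℝ)) * (1 - η)) * (A.card : ℝ) ^ 2 ≤
          (3 * (η / (2 * t))) * (A.card : ℝ) ^ 2 := by
        calc _ = _ := by ring
          _ ≤ _ := h2
          _ = _ := by ring
      exact le_of_mul_le_mul_right h4 (by positivity)
    have h5 : 1 / (A.card : ℝ) ≤ η / (2 * t) := by
      rw [div_le_iff₀ hn]
      linarith
    have h6 : 0 ≤ 1 - η := by
      by_contra hcon
      push Not at hcon
      have : 299 / 400 * (1 - η / (2 * t)) * (1 - η) ≤ 0 :=
        mul_nonpos_of_nonneg_of_nonpos (by linarith) hcon.le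
      have h0 : 0 ≤ η / (2 * t) := by positivity
      linarith
    have h7 : 299 / 400 * (1 - η / (2 * t)) * (1 - η) ≤ 299 / 400 * (1 - 1 / (A.card : ℝ)) * (1 - η) := by
      apply mul_le_mul_of_nonneg_right _ h6
      linarith
    linarith
  -- conclusion
  have hin : ∀ b ∈ A, (1 - 2 * t) * (A.card : ℝ) ≤ rr A (a₀ - b) := by
    intro b hb
    by_contra hcon
    have : b ∈ O := by rw [hO, Finset.mem_filter]; exact ⟨hb, hcon⟩
    rw [hOempty] at this
    simp at this
  have hcard : (A + A).card ≤ (pop A (2 * t)).card := by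
    apply Finset.card_le_card_of_injOn (fun s => a₀ + a₀ - s)
    · intro s hs
      rw [Finset.mem_coe] at hs ⊢
      obtain ⟨b, hb, c, hc, rfl⟩ := Finset.mem_add.mp hs
      rw [mem_pop hA (by linarith)]
      have : a₀ + a₀ - (b + c) = (a₀ - b) + (a₀ - c) := by abel
      beta_reduce
      rw [this]
      exact hclose _ _ (hin b hb) (hin c hc)
    · intro a _ b _ h
      simpa using h
  have hcard' : ((A + A).card : ℝ) ≤ (pop A (2 * t)).card := by exact_mod_cast hcard
  calc ((A + A).card : ℝ) * (1 - 2 * t) ≤ (pop A (2 * t)).card * (1 - 2 * t) :=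
        mul_le_mul_of_nonneg_right hcard' (by linarith)
    _ ≤ _ := pop_card_upper hA

end Pool.Agent.BSGEnergy
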