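import Mathlib
import Pool.Agent.BSGEnergy.Regimes

/-!
# Numerical part
-/

namespace Pool.Agent.BSGEnergy

open Finset

lemma log_four_bound : Real.log (1 / (14948 / 1000000)) ≤ 42042 / 10000 := by
  have e : (1 / (14948 / 1000000) : ℝ) = 2 ^ 6 * (1000000 / (14948 * 64)) := by norm_num
  rw [e, Real.log_mul (by norm_num) (by norm_num), Real.log_pow]
  have h1 := Real.log_two_lt_d9
  have h2 := Real.log_le_sub_one_of_pos (show (0:ℝ) < 1000000 / (14948 * 64) by norm_num)
  push_cast
  norm_num at h1 h2 ⊢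
  linarith

lemma log_rho_bound : Real.log (1 / (533 / 1000)) ≤ 6313 / 10000 := by
  have e : (1 / (533 / 1000) : ℝ) = 2 * (1066 / 1000)⁻¹ := by norm_num
  rw [e, Real.log_mul (by norm_num) (by norm_num), Real.log_inv]
  have h1 := Real.log_two_lt_d9
  have h2 := Real.one_sub_inv_le_log_of_pos (show (0:ℝ) < 1066 / 1000 by norm_num)
  norm_num at h1 h2 ⊢
  linarith

lemma log_ratio_bound : 317 / 1000 ≤ Real.log (732452 / 1000000 / (533 / 1000)) := by
  have e : (732452 / 1000000 / (533 / 1000) : ℝ) ^ 2 = 2 * ((732452 / 1000000 / (533 / 1000)) ^ 2 / 2) := by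
    ring
  have h0 : 2 * Real.log (732452 / 1000000 / (533 / 1000)) =
      Real.log ((732452 / 1000000 / (533 / 1000)) ^ 2) := by
    rw [Real.log_pow]; norm_num
  rw [e, Real.log_mul (by norm_num) (by norm_num)] at h0
  have h1 := Real.log_two_gt_d9
  have h2 := Real.one_sub_inv_le_log_of_pos
    (show (0:ℝ) < (732452 / 1000000 / (533 / 1000)) ^ 2 / 2 by norm_num)
  norm_num at h0 h1 h2 ⊢
  linarith

lemma log_thirty : Real.log 30 ≤ 34033 / 10000 := by
  have e : (30 : ℝ) = 2 ^ 5 * (30 / 32) := by norm_num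
  rw [e, Real.log_mul (by norm_num) (by norm_num), Real.log_pow]
  have h1 := Real.log_two_lt_d9
  have h2 := Real.log_le_sub_one_of_pos (show (0:ℝ) < 30 / 32 by norm_num)
  push_cast
  norm_num at h1 h2 ⊢
  linarith

lemma log_e1 : 1077 / 1000 ≤ Real.log (1 / (34 / 100)) := by
  have h0 : 2 * Real.log (1 / (34 / 100)) = Real.log ((1 / (34 / 100)) ^ 2) := by
    rw [Real.log_pow]; norm_num
  have e : ((1 / (34 / 100) : ℝ)) ^ 2 = 2 ^ 3 * ((1 / (34 / 100)) ^ 2 / 8) := by ring
  rw [e, Real.log_mul (by norm_num) (by norm_num), Real.log_pow] at h0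
  have h1 := Real.log_two_gt_d9
  have h2 := Real.one_sub_inv_le_log_of_pos (show (0:ℝ) < (1 / (34 / 100)) ^ 2 / 8 by norm_num)
  push_cast at h0
  norm_num at h0 h1 h2 ⊢
  linarith

lemma log_149 : 396 / 1000 ≤ Real.log (149 / 100) := by
  have h0 : 2 * Real.log (149 / 100) = Real.log ((149 / 100) ^ 2) := by
    rw [Real.log_pow]; norm_num
  have e : ((149 / 100 : ℝ)) ^ 2 = 2 * ((149 / 100) ^ 2 / 2) := by ring
  rw [e, Real.log_mul (by norm_num) (by norm_num)] at h0
  have h1 := Real.log_two_gt_d9
  have h2 := Real.one_sub_inv_le_log_of_pos (show (0:ℝ) < (149 / 100) ^ 2 / 2 by norm_num)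
  norm_num at h0 h1 h2 ⊢
  linarith

lemma log_delta : Real.log (1 / (304 / 10000)) ≤ 34938 / 10000 := by
  have e : (1 / (304 / 10000) : ℝ) = 2 ^ 5 * (10000 / (304 * 32)) := by norm_num
  rw [e, Real.log_mul (by norm_num) (by norm_num), Real.log_pow]
  have h1 := Real.log_two_lt_d9
  have h2 := Real.log_le_sub_one_of_pos (show (0:ℝ) < 10000 / (304 * 32) by norm_num)
  push_cast
  norm_num at h1 h2 ⊢
  linarith

lemma log_39 : Real.log (39 / 10) ≤ 13613 / 10000 := by
  have e : (39 / 10 : ℝ) = 2 ^ 2 * (39 / 40) := by norm_num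
  rw [e, Real.log_mul (by norm_num) (by norm_num), Real.log_pow]
  have h1 := Real.log_two_lt_d9
  have h2 := Real.log_le_sub_one_of_pos (show (0:ℝ) < 39 / 40 by norm_num)
  push_cast
  norm_num at h1 h2 ⊢
  linarith

/-- the choice of the number of steps -/
lemma numeric {L D : ℝ} (hL : 396 / 1000 ≤ L) (hD : D ≤ L - 317 / 1000) (hD0 : 1 / 30 < D) :
    ∃ m : ℕ, 1 ≤ m ∧ (34 / 100 : ℝ) ^ m * D ≤ 1 / 30 ∧
      (2 * m + 2) * (L + 42042 / 10000) + 2 * m * (6313 / 10000) + 30304 / 10000 * D + 34938 / 10000 ≤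
        max 100 (16 + 2 * Real.log L) * L := by
  have hDpos : 0 < D := by linarith
  have hLpos : 0 < L := by linarith
  have h30 : 1 < 30 * D := by linarith
  have hlog : 0 < Real.log (30 * D) := Real.log_pos h30
  obtain ⟨m, hm⟩ : ∃ m : ℕ, m = ⌈Real.log (30 * D) / (1077 / 1000)⌉₊ := ⟨_, rfl⟩
  have hm1 : Real.log (30 * D) / (1077 / 1000) ≤ m := by rw [hm]; exact Nat.le_ceil _
  have hm2 : (m:ℝ) < Real.log (30 * D) / (1077 / 1000) + 1 := by
    rw [hm]; exact Nat.ceil_lt_add_one (by positivity)
  have hmpos : 1 ≤ m := by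
    have : (0:ℝ) < m := lt_of_lt_of_le (by positivity) hm1
    exact_mod_cast this
  refine ⟨m, hmpos, ?_, ?_⟩
  · have h1 : Real.log (30 * D) ≤ m * Real.log (1 / (34 / 100)) := by
      rw [div_le_iff₀ (by norm_num)] at hm1
      have : (m:ℝ) * (1077 / 1000) ≤ m * Real.log (1 / (34 / 100)) :=
        mul_le_mul_of_nonneg_left log_e1 (by positivity)
      linarith
    rw [← Real.log_pow] at h1
    have h2 : 30 * D ≤ (1 / (34 / 100)) ^ m := by
      rwa [Real.log_le_log_iff (by linarith) (by positivity)] at h1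
    rw [one_div, inv_pow] at h2
    have h3 : (0:ℝ) < (34 / 100) ^ m := by positivity
    have h4 : (34 / 100 : ℝ) ^ m * (30 * D) ≤ 1 := by
      calc (34 / 100 : ℝ) ^ m * (30 * D) ≤ (34 / 100 : ℝ) ^ m * (((34 / 100) ^ m)⁻¹) :=
            mul_le_mul_of_nonneg_left h2 h3.le
        _ = 1 := mul_inv_cancel₀ h3.ne'
    linarith
  · -- the main inequality
    have hM : (m:ℝ) ≤ 1 + 92851 / 100000 * Real.log (30 * D) := by
      have : Real.log (30 * D) / (1077 / 1000) ≤ 92851 / 100000 * Real.log (30 * D) := by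
        rw [div_le_iff₀ (by norm_num)]
        nlinarith
      linarith
    have hmnn : (0:ℝ) ≤ m := by positivity
    rcases le_or_gt L 1 with hL1 | hL1
    · have h1 : Real.log (30 * D) ≤ 30 * D / (39 / 10) + 3613 / 10000 := by
        have h2 : Real.log (30 * D) = Real.log (39 / 10) + Real.log (30 * D / (39 / 10)) := by
          rw [← Real.log_mul (by norm_num) (by positivity)]
          congr 1
          field_simp
        have h3 := Real.log_le_sub_one_of_pos (show 0 < 30 * D / (39 / 10) by positivity)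
        have h4 := log_39
        rw [h2]
        linarith
      have h2 : (m:ℝ) + 1 ≤ 7135 / 100000 + 71424 / 10000 * L := by
        have : 30 * D / (39 / 10) = 100 / 13 * D := by ring
        rw [this] at h1
        nlinarith
      have h3 : (2 * m + 2) * (L + 42042 / 10000) + 2 * m * (6313 / 10000) + 30304 / 10000 * D +
          34938 / 10000 = (m + 1) * (2 * L + 9671 / 1000) - 12626 / 10000 + 30304 / 10000 * D +
          34938 / 10000 := by ring
      rw [h3]
      have h4 : ((m:ℝ) + 1) * (2 * L + 9671 / 1000) ≤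
          (7135 / 100000 + 71424 / 10000 * L) * (2 * L + 9671 / 1000) :=
        mul_le_mul_of_nonneg_right h2 (by linarith)
      have h5 : 100 * L ≤ max 100 (16 + 2 * Real.log L) * L :=
        mul_le_mul_of_nonneg_right (le_max_left _ _) hLpos.le
      refine le_trans ?_ h5
      nlinarith [mul_nonneg (sub_nonneg.mpr hL) (sub_nonneg.mpr hL1)]
    · have h1 : Real.log (30 * D) ≤ 34033 / 10000 + Real.log L := by
        have h2 : Real.log (30 * D) ≤ Real.log (30 * L) :=
          Real.log_le_log (by linarith) (by linarith)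
        rw [Real.log_mul (by norm_num) hLpos.ne'] at h2
        linarith [log_thirty]
      obtain ⟨l, hl⟩ : ∃ l, l = Real.log L := ⟨_, rfl⟩
      rw [← hl] at h1 ⊢
      have hl0 : 0 < l := by rw [hl]; exact Real.log_pos hL1
      have h2 : (m:ℝ) + 1 ≤ 516001 / 100000 + 92851 / 100000 * l := by nlinarith
      have h3 : (2 * m + 2) * (L + 42042 / 10000) + 2 * m * (6313 / 10000) + 30304 / 10000 * D +
          34938 / 10000 = 2 * (m + 1) * L + (m + 1) * (9671 / 1000) - 12626 / 10000 +
          30304 / 10000 * D + 34938 / 10000 := by ring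
      rw [h3]
      have hlL : l ≤ L - 1 := by rw [hl]; exact Real.log_le_sub_one_of_pos hLpos
      have h4 : 2 * ((m:ℝ) + 1) * L ≤ 2 * (516001 / 100000 + 92851 / 100000 * l) * L :=
        mul_le_mul_of_nonneg_right (by linarith) hLpos.le
      rcases le_or_gt l 4 with hl4 | hl4
      · have h5 : 100 * L ≤ max 100 (16 + 2 * l) * L :=
          mul_le_mul_of_nonneg_right (le_max_left _ _) hLpos.le
        refine le_trans ?_ h5
        nlinarith
      · have h5 : (16 + 2 * l) * L ≤ max 100 (16 + 2 * l) * L :=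
          mul_le_mul_of_nonneg_right (le_max_right _ _) hLpos.le
        refine le_trans ?_ h5
        have hL54 : 54 * (l - 3) ≤ L := by
          have e1 : L = Real.exp 4 * Real.exp (l - 4) := by
            rw [← Real.exp_add, hl]
            have : 4 + (Real.log L - 4) = Real.log L := by ring
            rw [this, Real.exp_log hLpos]
          have e2 : (54:ℝ) ≤ Real.exp 4 := by
            have h6 := Real.exp_one_gt_d9
            have h7 : Real.exp 4 = Real.exp 1 ^ 4 := by rw [← Real.exp_nat_mul]; norm_num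
            rw [h7]
            calc (54:ℝ) ≤ (2.7182818283) ^ 4 := by norm_num
              _ ≤ _ := pow_le_pow_left₀ (by norm_num) h6.le 4
          have e3 : l - 3 ≤ Real.exp (l - 4) := by
            have := Real.add_one_le_exp (l - 4)
            linarith
          rw [e1]
          exact mul_le_mul e2 e3 (by linarith) (by positivity)
        nlinarith

end Pool.Agent.BSGEnergy
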