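import Mathlib
import Pool.Agent.BSGEnergy.Numeric

/-!
# The main regime
-/

namespace Pool.Agent.BSGEnergy

open Finset

variable {G : Type*} [AddCommGroup G] [DecidableEq G]

/-- the lower bounds for the densities -/
noncomputable def dens (n D : ℝ) : ℕ → ℝ
  | 0 => 1 / n
  | j + 1 => 533 / 1000 * Real.exp (-((34 / 100) ^ j * D))

lemma dens_nonneg {n D : ℝ} (hn : 0 < n) (j : ℕ) : 0 ≤ dens n D j := by
  cases j with
  | zero => simp only [dens]; positivity
  | succ j => simp only [dens]; positivity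

lemma rho_pow : ((533:ℝ) / 1000) ^ 198 ≤ (732452 / 1000000) ^ 400 := by
  have h : ((533:ℝ) / 1000) ^ 99 ≤ (732452 / 1000000) ^ 200 := by norm_num
  calc ((533:ℝ) / 1000) ^ 198 = (((533:ℝ) / 1000) ^ 99) ^ 2 := by rw [← pow_mul]
    _ ≤ ((732452 / 1000000) ^ 200) ^ 2 := pow_le_pow_left₀ (by positivity) h 2
    _ = (732452 / 1000000) ^ 400 := by rw [← pow_mul]

lemma dens_step {n D : ℝ} (hD : 0 ≤ D) (j : ℕ) :
    dens n D (j + 2) ^ 299 ≤ (732452 / 1000000) ^ 400 * dens n D (j + 1) ^ 101 := by
  simp only [dens]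
  rw [mul_pow, mul_pow, ← Real.exp_nat_mul, ← Real.exp_nat_mul]
  have e1 : ((533:ℝ) / 1000) ^ 299 = (533 / 1000) ^ 198 * (533 / 1000) ^ 101 := by rw [← pow_add]
  rw [e1]
  have h1 : Real.exp ((299:ℕ) * -((34 / 100) ^ (j + 1) * D)) ≤
      Real.exp ((101:ℕ) * -((34 / 100) ^ j * D)) := by
    apply Real.exp_le_exp.mpr
    have h2 : 0 ≤ (34 / 100 : ℝ) ^ j * D := by positivity
    rw [pow_succ]
    push_cast
    nlinarith
  calc (533 / 1000 : ℝ) ^ 198 * (533 / 1000) ^ 101 * Real.exp ((299:ℕ) * -((34 / 100) ^ (j + 1) * D))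
      ≤ (732452 / 1000000) ^ 400 * (533 / 1000) ^ 101 * Real.exp ((101:ℕ) * -((34 / 100) ^ j * D)) := by
        apply mul_le_mul _ h1 (Real.exp_pos _).le (by positivity)
        exact mul_le_mul_of_nonneg_right rho_pow (by positivity)
    _ = _ := by ring

lemma geom_le (m : ℕ) : ∑ j ∈ range m, (34 / 100 : ℝ) ^ j ≤ 100 / 66 := by
  have h := geom_sum_eq (show (34 / 100 : ℝ) ≠ 1 by norm_num) m
  rw [h]
  have : (0:ℝ) < (34 / 100) ^ m := by positivity
  rw [div_le_iff_of_neg (by norm_num)]
  linarith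

open Pointwise in
/-- The main regime: `n³ / E ≥ 1.49` and `n` not tiny. -/
lemma large_regime {A : Finset G} (hA : A.Nonempty) (hext : Extremal A) {k : ℝ}
    (hk : k = (A.card : ℝ) ^ 3 / energy A) (hk149 : 149 / 100 ≤ k) (hn : (10:ℝ) ^ 5 ≤ A.card) :
    ((A + A).card : ℝ) ≤ k ^ (max 100 (16 + 2 * Real.log (Real.log k))) * A.card := by
  have hnpos : (0:ℝ) < A.card := by exact_mod_cast hA.card_pos
  have hE : (0:ℝ) < energy A := by exact_mod_cast energy_pos hA
  have hkpos : 0 < k := by linarith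
  have hEk : (energy A : ℝ) / (A.card : ℝ) ^ 3 = 1 / k := by rw [hk, one_div_div]
  have hEk' : (energy A : ℝ) / A.card = (A.card : ℝ) ^ 2 / k := by
    rw [hk]; field_simp
  have hdeg : ∀ z ∈ A, 7474 / 10000 * ((energy A : ℝ) / A.card) ≤ deg A z := by
    intro z hz
    refine le_trans ?_ (deg_lower hext hz)
    apply mul_le_mul_of_nonneg_right _ (by positivity)
    have : 1 / (A.card : ℝ) ≤ 1 / 10 ^ 5 := one_div_le_one_div_of_le (by norm_num) hn
    have h2 : (1:ℝ) / 10 ^ 5 = 1 / 100000 := by norm_num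
    rw [h2] at this
    linarith
  have hc : (0:ℝ) < 7474 / 10000 := by norm_num
  have hε : (0:ℝ) < 2 / 100 := by norm_num
  have hε1 : (2 / 100 : ℝ) < 1 := by norm_num
  have hA0 : (1 - 2 / 100) * (7474 / 10000) = (732452 / 1000000 : ℝ) := by norm_num
  have hθ : (2 / 100) * (7474 / 10000) = (14948 / 1000000 : ℝ) := by norm_num
  -- L and D
  obtain ⟨L, hLdef⟩ : ∃ L, L = Real.log k := ⟨_, rfl⟩
  obtain ⟨D, hDdef⟩ : ∃ D, D = Real.log k - Real.log (732452 / 1000000 / (533 / 1000)) := ⟨_, rfl⟩
  have hL : 396 / 1000 ≤ L := by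
    rw [hLdef]
    exact log_149.trans (Real.log_le_log (by norm_num) hk149)
  have hDL : D ≤ L - 317 / 1000 := by
    rw [hDdef, hLdef]; linarith [log_ratio_bound]
  have hD0 : 1 / 30 < D := by
    have h1 : Real.log (732452 / 1000000 / (533 / 1000)) ≤ 36 / 100 := by
      have e : (732452 / 1000000 / (533 / 1000) : ℝ) ^ 2 =
          2 * ((732452 / 1000000 / (533 / 1000)) ^ 2 / 2) := by ring
      have h0 : 2 * Real.log (732452 / 1000000 / (533 / 1000)) =
          Real.log ((732452 / 1000000 / (533 / 1000)) ^ 2) := by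
        rw [Real.log_pow]; norm_num
      rw [e, Real.log_mul (by norm_num) (by norm_num)] at h0
      have h1 := Real.log_two_lt_d9
      have h2 := Real.log_le_sub_one_of_pos
        (show (0:ℝ) < (732452 / 1000000 / (533 / 1000)) ^ 2 / 2 by norm_num)
      norm_num at h0 h1 h2 ⊢
      linarith
    have h2 : 396 / 1000 ≤ Real.log k := by rw [← hLdef]; exact hL
    rw [hDdef]
    linarith
  have hexpD : 533 / 1000 * Real.exp (-D) = 732452 / 1000000 * (1 / k) := by
    rw [hDdef, neg_sub, Real.exp_sub, Real.exp_log (by norm_num), Real.exp_log hkpos]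
    ring
  obtain ⟨m, hm1, hm2, hm3⟩ := numeric hL hDL hD0
  have hDnn : 0 ≤ D := by linarith
  -- densities
  have hdens : ∀ x ∈ A, ∀ j, dens A.card D j ≤
      ((chain A (2 / 100 * (7474 / 10000)) x j).card : ℝ) / A.card := by
    intro x hx j
    induction j with
    | zero => simp [dens, chain]
    | succ j ih =>
      cases j with
      | zero =>
        have h1 := chain_first hA hc hε hε1 hdeg hx
        refine le_trans (le_of_eq ?_) h1
        simp only [dens, pow_zero, one_mul]
        rw [hexpD, hA0, hEk]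
      | succ j =>
        have hpos : (0:ℝ) < dens A.card D (j + 1) := by simp only [dens]; positivity
        have hne : (chain A (2 / 100 * (7474 / 10000)) x (j + 1)).Nonempty := by
          rw [← Finset.card_pos]
          have h2 := lt_of_lt_of_le hpos ih
          have h3 : (0:ℝ) < (chain A (2 / 100 * (7474 / 10000)) x (j + 1)).card := by
            by_contra hcon
            push Not at hcon
            have : ((chain A (2 / 100 * (7474 / 10000)) x (j + 1)).card : ℝ) / A.card ≤ 0 :=
              div_nonpos_of_nonpos_of_nonneg hcon hnpos.le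
            linarith
          exact_mod_cast h3
        have h1 := chain_growth hext hc hε hε1 hdeg hx (j + 1) hne
        rw [hA0] at h1
        apply le_of_pow_le_pow_left₀ (show 299 ≠ 0 by norm_num) (by positivity)
        refine (dens_step hDnn j).trans (le_trans ?_ h1)
        apply mul_le_mul_of_nonneg_left _ (by positivity)
        exact pow_le_pow_left₀ hpos.le ih 101
  have hlast : ∀ x ∈ A, dens A.card D (m + 1) ≤
      ((last A (2 / 100 * (7474 / 10000)) x m).card : ℝ) / A.card := by
    intro x hx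
    obtain ⟨m', rfl⟩ : ∃ m', m = m' + 1 := ⟨m - 1, by omega⟩
    have ih := hdens x hx (m' + 1)
    have hpos : (0:ℝ) < dens A.card D (m' + 1) := by simp only [dens]; positivity
    have hne : (chain A (2 / 100 * (7474 / 10000)) x (m' + 1)).Nonempty := by
      rw [← Finset.card_pos]
      have h2 := lt_of_lt_of_le hpos ih
      have h3 : (0:ℝ) < (chain A (2 / 100 * (7474 / 10000)) x (m' + 1)).card := by
        by_contra hcon
        push Not at hcon
        have : ((chain A (2 / 100 * (7474 / 10000)) x (m' + 1)).card : ℝ) / A.card ≤ 0 :=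
          div_nonpos_of_nonpos_of_nonneg hcon hnpos.le
        linarith
      exact_mod_cast h3
    have h1 := last_growth hext hc hε hε1 hdeg hx (m' + 1) hne
    rw [hA0] at h1
    apply le_of_pow_le_pow_left₀ (show 299 ≠ 0 by norm_num) (by positivity)
    refine (dens_step hDnn m').trans (le_trans ?_ h1)
    apply mul_le_mul_of_nonneg_left _ (by positivity)
    exact pow_le_pow_left₀ hpos.le ih 101
  have hbound := sumset_bound hA (θ := 2 / 100 * (7474 / 10000)) (by norm_num) (dens A.card D)
    (dens_nonneg hnpos) hdens m hlast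
  rw [hθ] at hbound
  -- the product
  have hprod : (14948 / 1000000 * ((energy A : ℝ) / A.card)) ^ (m + 1) * (1 / A.card) *
      ((533 / 1000) ^ m * Real.exp (-(100 / 66 * D))) ≤
      ∏ i ∈ range (m + 1), (14948 / 1000000 * ((energy A : ℝ) / A.card) * dens A.card D i) := by
    rw [Finset.prod_mul_distrib, Finset.prod_const, Finset.card_range, Finset.prod_range_succ']
    simp only [dens]
    rw [Finset.prod_mul_distrib, Finset.prod_const, Finset.card_range, ← Real.exp_sum]
    have h1 : Real.exp (-(100 / 66 * D)) ≤ Real.exp (∑ x ∈ range m, -((34 / 100) ^ x * D)) := by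
      apply Real.exp_le_exp.mpr
      rw [Finset.sum_neg_distrib, ← Finset.sum_mul]
      have := mul_le_mul_of_nonneg_right (geom_le m) hDnn
      linarith
    calc _ = (14948 / 1000000 * ((energy A : ℝ) / A.card)) ^ (m + 1) * (1 / A.card) *
          ((533 / 1000) ^ m * Real.exp (-(100 / 66 * D))) := rfl
      _ ≤ (14948 / 1000000 * ((energy A : ℝ) / A.card)) ^ (m + 1) * (1 / A.card) *
          ((533 / 1000) ^ m * Real.exp (∑ x ∈ range m, -((34 / 100) ^ x * D))) := by
          gcongr
      _ = _ := by ring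
  have hlastd : 304 / 10000 ≤ 2 * dens A.card D (m + 1) - 1 := by
    simp only [dens]
    have h1 : 1 - 1 / 30 ≤ Real.exp (-((34 / 100) ^ m * D)) := by
      have := Real.add_one_le_exp (-((34 / 100) ^ m * D))
      linarith
    nlinarith
  -- combine
  obtain ⟨Q, hQ⟩ : ∃ Q, Q = (14948 / 1000000 * ((energy A : ℝ) / A.card)) ^ (m + 1) * (1 / A.card) *
      ((533 / 1000) ^ m * Real.exp (-(100 / 66 * D))) := ⟨_, rfl⟩
  rw [← hQ] at hprod
  have hQ0 : 0 ≤ Q := by rw [hQ]; positivity
  have h1 : ((A + A).card : ℝ) * (Q ^ 2 * (304 / 10000 * A.card)) ≤ (A.card : ℝ) ^ (2 + 2 * (2 * m + 1)) := by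
    refine le_trans ?_ hbound
    apply mul_le_mul_of_nonneg_left _ (by positivity)
    apply mul_le_mul
    · exact pow_le_pow_left₀ hQ0 hprod 2
    · exact mul_le_mul_of_nonneg_right hlastd hnpos.le
    · positivity
    · positivity
  -- rewrite Q ^ 2
  have h2 : Q ^ 2 * (304 / 10000 * A.card) = (14948 / 1000000 / k) ^ (2 * m + 2) *
      ((533 / 1000) ^ (2 * m)) * Real.exp (-(200 / 66 * D)) * (304 / 10000) *
      ((A.card : ℝ) ^ (4 * m + 3)) := by
    rw [hQ, hEk']
    have e1 : Real.exp (-(200 / 66 * D)) = Real.exp (-(100 / 66 * D)) ^ 2 := by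
      rw [← Real.exp_nat_mul]; congr 1; push_cast; ring
    have e2 : (14948 / 1000000 * ((A.card : ℝ) ^ 2 / k)) = (14948 / 1000000 / k) * (A.card : ℝ) ^ 2 := by
      ring
    rw [e1, e2, mul_pow _ _ (m + 1), ← pow_mul]
    have e3 : (A.card : ℝ) ^ (4 * m + 3) * A.card ^ 2 = (A.card : ℝ) ^ (2 * (m + 1)) * (A.card : ℝ) ^ (2 * (m + 1)) * A.card := by
      rw [← pow_add, ← pow_add, ← pow_succ]; congr 1; ring
    have hn2 : (A.card : ℝ) ^ 2 ≠ 0 := by positivity
    apply mul_right_cancel₀ hn2
    calc _ = ((14948 / 1000000 / k) ^ (m + 1)) ^ 2 * ((533 / 1000) ^ m) ^ 2 *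
          Real.exp (-(100 / 66 * D)) ^ 2 * (304 / 10000) *
          ((A.card : ℝ) ^ (2 * (m + 1)) * (A.card : ℝ) ^ (2 * (m + 1)) * A.card) := by
          field_simp
      _ = _ := by
          rw [← e3, ← pow_mul, ← pow_mul]
          have e4 : (m + 1) * 2 = 2 * m + 2 := by ring
          have e5 : m * 2 = 2 * m := by ring
          rw [e4, e5]
          ring
  rw [h2] at h1
  have h3 : ((A + A).card : ℝ) * ((14948 / 1000000 / k) ^ (2 * m + 2) *
      ((533 / 1000) ^ (2 * m)) * Real.exp (-(200 / 66 * D)) * (304 / 10000)) ≤ A.card := by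
    have e : (A.card : ℝ) ^ (2 + 2 * (2 * m + 1)) = A.card * (A.card : ℝ) ^ (4 * m + 3) := by
      rw [← pow_succ']; congr 1; ring
    rw [e] at h1
    have hp : (0:ℝ) < (A.card : ℝ) ^ (4 * m + 3) := by positivity
    apply le_of_mul_le_mul_right _ hp
    calc _ = ((A + A).card : ℝ) * ((14948 / 1000000 / k) ^ (2 * m + 2) *
      ((533 / 1000) ^ (2 * m)) * Real.exp (-(200 / 66 * D)) * (304 / 10000) *
      ((A.card : ℝ) ^ (4 * m + 3))) := by ring
      _ ≤ _ := h1
  -- exponentials
  obtain ⟨T, hT⟩ : ∃ T, T = (2 * (m:ℝ) + 2) * (L + 42042 / 10000) + 2 * m * (6313 / 10000) +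
      30304 / 10000 * D + 34938 / 10000 := ⟨_, rfl⟩
  rw [← hT] at hm3
  have h4 : Real.exp (-T) ≤ (14948 / 1000000 / k) ^ (2 * m + 2) *
      ((533 / 1000) ^ (2 * m)) * Real.exp (-(200 / 66 * D)) * (304 / 10000) := by
    have f1 : Real.exp (-((2 * (m:ℝ) + 2) * (L + 42042 / 10000))) ≤ (14948 / 1000000 / k) ^ (2 * m + 2) := by
      have g : Real.exp (-(L + 42042 / 10000)) ≤ 14948 / 1000000 / k := by
        have g1 : (14948 / 1000000 / k : ℝ) = Real.exp (-(L + Real.log (1 / (14948 / 1000000)))) := by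
          rw [neg_add, Real.exp_add, Real.exp_neg, Real.exp_neg, Real.exp_log (by norm_num), hLdef,
            Real.exp_log hkpos]
          field_simp
        rw [g1]
        apply Real.exp_le_exp.mpr
        linarith [log_four_bound]
      have g2 : Real.exp (-((2 * (m:ℝ) + 2) * (L + 42042 / 10000))) =
          Real.exp (-(L + 42042 / 10000)) ^ (2 * m + 2) := by
        rw [← Real.exp_nat_mul]; congr 1; push_cast; ring
      rw [g2]
      exact pow_le_pow_left₀ (Real.exp_pos _).le g _
    have f2 : Real.exp (-(2 * m * (6313 / 10000))) ≤ (533 / 1000) ^ (2 * m) := by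
      have g : Real.exp (-(6313 / 10000)) ≤ 533 / 1000 := by
        have g1 : (533 / 1000 : ℝ) = Real.exp (-(Real.log (1 / (533 / 1000)))) := by
          rw [Real.exp_neg, Real.exp_log (by norm_num)]; norm_num
        rw [g1]
        apply Real.exp_le_exp.mpr
        linarith [log_rho_bound]
      have g2 : Real.exp (-(2 * m * (6313 / 10000))) = Real.exp (-(6313 / 10000)) ^ (2 * m) := by
        rw [← Real.exp_nat_mul]; congr 1; push_cast; ring
      rw [g2]
      exact pow_le_pow_left₀ (Real.exp_pos _).le g _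
    have f3 : Real.exp (-(30304 / 10000 * D)) ≤ Real.exp (-(200 / 66 * D)) := by
      apply Real.exp_le_exp.mpr
      nlinarith
    have f4 : Real.exp (-(34938 / 10000)) ≤ 304 / 10000 := by
      have g1 : (304 / 10000 : ℝ) = Real.exp (-(Real.log (1 / (304 / 10000)))) := by
        rw [Real.exp_neg, Real.exp_log (by norm_num)]; norm_num
      rw [g1]
      apply Real.exp_le_exp.mpr
      linarith [log_delta]
    have f5 : Real.exp (-T) = Real.exp (-((2 * (m:ℝ) + 2) * (L + 42042 / 10000))) *
        Real.exp (-(2 * m * (6313 / 10000))) * Real.exp (-(30304 / 10000 * D)) *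
        Real.exp (-(34938 / 10000)) := by
      rw [← Real.exp_add, ← Real.exp_add, ← Real.exp_add, hT]; congr 1; ring
    rw [f5]
    gcongr
  have h5 : ((A + A).card : ℝ) * Real.exp (-T) ≤ A.card :=
    (mul_le_mul_of_nonneg_left h4 (by positivity)).trans h3
  have h6 : ((A + A).card : ℝ) ≤ Real.exp T * A.card := by
    rw [Real.exp_neg, ← div_eq_mul_inv, div_le_iff₀ (Real.exp_pos _), mul_comm] at h5
    exact h5
  refine h6.trans ?_
  apply mul_le_mul_of_nonneg_right _ hnpos.le
  rw [Real.rpow_def_of_pos hkpos]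
  apply Real.exp_le_exp.mpr
  rw [← hLdef, mul_comm]
  exact hm3

end Pool.Agent.BSGEnergy
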