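import Pool.Agent.BSGEnergy.Basic

/-!
# The path argument for extremal sets (MP_be00de_co)
-/

set_option autoImplicit false

open Finset
open scoped Pointwise

namespace Pool.Agent.BSGEnergy

/-- `θ = (4 - s)/s` with `s = 299/100` -/
noncomputable def th : ℝ := 101 / 299

/-- exponent of the measure of the `j`-th neighbourhood -/
noncomputable def XX (l : ℝ) (j : ℕ) : ℝ := 0.62 + th ^ j * l

/-- exponent of the weight on the `j`-th neighbourhood -/
noncomputable def WW (l : ℝ) : ℕ → ℝ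
  | 0 => Real.log 100 + l
  | (j + 1) => WW l j + (Real.log 100 + l) + XX l j

lemma WW_eq (l : ℝ) (j : ℕ) :
    WW l j = (j + 1) * (Real.log 100 + l) + j * 0.62 + l * ((1 - th ^ j) / (1 - th)) := by
  have hth : (1 : ℝ) - th ≠ 0 := by norm_num [th]
  induction j with
  | zero => simp [WW]
  | succ j ih =>
    simp only [WW, ih, XX]
    push_cast
    have : (1 - th ^ (j + 1)) / (1 - th) = (1 - th ^ j) / (1 - th) + th ^ j := by
      rw [eq_comm, div_add' _ _ _ hth]; congr 1; ring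
    rw [this]; ring

lemma WW_le (l : ℝ) (hl : 0 ≤ l) (j : ℕ) :
    WW l j ≤ (j + 1) * (Real.log 100 + l) + j * 0.62 + 1.5102 * l := by
  rw [WW_eq]
  have h1 : (0:ℝ) ≤ th ^ j := by unfold th; positivity
  have h2 : (1 - th ^ j) / (1 - th) ≤ 1.5102 := by
    rw [div_le_iff₀ (by norm_num [th])]
    have : 1.5102 * (1 - th) = 1.5102 * (198 / 299) := by norm_num [th]
    rw [this]
    have : (1:ℝ) ≤ 1.5102 * (198 / 299) := by norm_num
    linarith
  have := mul_le_mul_of_nonneg_left h2 hl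
  linarith

lemma exp_num1 : Real.exp (-0.3069) ≤ 0.737 := by
  have h : (1 + 0.3069 / 64 : ℝ) ^ 64 ≤ Real.exp 0.3069 := by
    have h1 : (1 + 0.3069 / 64 : ℝ) ≤ Real.exp (0.3069 / 64) := by
      have := Real.add_one_le_exp (0.3069 / 64 : ℝ); linarith
    calc (1 + 0.3069 / 64 : ℝ) ^ 64 ≤ (Real.exp (0.3069 / 64)) ^ 64 :=
          pow_le_pow_left₀ (by norm_num) h1 64
      _ = Real.exp 0.3069 := by rw [← Real.exp_nat_mul]; norm_num
  have h2 : (1.3569 : ℝ) ≤ (1 + 0.3069 / 64 : ℝ) ^ 64 := by norm_num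
  rw [Real.exp_neg, inv_le_comm₀ (Real.exp_pos _) (by norm_num)]
  have : (0.737 : ℝ)⁻¹ ≤ 1.3569 := by norm_num
  linarith

variable {G : Type*} [AddCommGroup G] [DecidableEq G]

/-- expansion of a set of popular neighbours -/
lemma expand (B : Finset G) (hB : B.Nonempty) (hext : Extremal B)
    (l : ℝ) (hE : NN B B B B = Real.exp (-l) * (B.card : ℝ) ^ 3)
    (hee : ∀ b ∈ B, 0.747 * (Real.exp (-l) * (B.card : ℝ) ^ 2) ≤ ee B b)
    (F : Finset G) (hF : F ⊆ B) (hFne : F.Nonempty) (X Y : ℝ)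
    (hX : Real.exp (-X) * B.card ≤ F.card)
    (hXY : (101 / 100) * X + 4 * 0.3069 ≤ (299 / 100) * Y) :
    Real.exp (-Y) * B.card ≤ (B.filter fun c =>
      0.01 * ((F.card : ℝ) * (Real.exp (-l) * B.card)) ≤ ∑ c' ∈ F, cr B B (c' - c)).card := by
  classical
  set n : ℝ := (B.card : ℝ) with hn
  have hn0 : 0 < n := by rw [hn]; exact_mod_cast hB.card_pos
  set e := Real.exp (-l) with he
  have he0 : 0 < e := Real.exp_pos _
  set F' := B.filter (fun c => 0.01 * ((F.card : ℝ) * (e * n)) ≤ ∑ c' ∈ F, cr B B (c' - c))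
    with hF'
  have hF'B : F' ⊆ B := Finset.filter_subset _ _
  have hf0 : (0:ℝ) < F.card := by exact_mod_cast hFne.card_pos
  -- lower bound for the number of quadruples
  have h1 : 0.747 * (e * n ^ 2) * F.card ≤ ∑ c' ∈ F, ee B c' := by
    have : ∑ c' ∈ F, (0.747 * (e * n ^ 2)) ≤ ∑ c' ∈ F, ee B c' :=
      Finset.sum_le_sum fun c' hc' => hee c' (hF hc')
    rw [Finset.sum_const, nsmul_eq_mul] at this
    linarith
  have h2 : ∑ c' ∈ F, ee B c' = ∑ c ∈ B, ∑ c' ∈ F, cr B B (c' - c) := by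
    unfold ee; exact Finset.sum_comm
  have h3 : ∑ c ∈ B, ∑ c' ∈ F, cr B B (c' - c)
      = ∑ c ∈ F', ∑ c' ∈ F, cr B B (c' - c)
        + ∑ c ∈ B.filter (fun c => ¬ 0.01 * ((F.card : ℝ) * (e * n)) ≤ ∑ c' ∈ F, cr B B (c' - c)),
          ∑ c' ∈ F, cr B B (c' - c) := (Finset.sum_filter_add_sum_filter_not _ _ _).symm
  have h4 : ∑ c ∈ B.filter (fun c => ¬ 0.01 * ((F.card : ℝ) * (e * n)) ≤ ∑ c' ∈ F, cr B B (c' - c)),
          ∑ c' ∈ F, cr B B (c' - c) ≤ n * (0.01 * ((F.card : ℝ) * (e * n))) := by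
    have h5 : ∀ c ∈ B.filter (fun c => ¬ 0.01 * ((F.card : ℝ) * (e * n)) ≤ ∑ c' ∈ F, cr B B (c' - c)),
        ∑ c' ∈ F, cr B B (c' - c) ≤ 0.01 * ((F.card : ℝ) * (e * n)) := by
      intro c hc
      have := (Finset.mem_filter.1 hc).2
      push Not at this
      exact this.le
    refine (Finset.sum_le_sum h5).trans ?_
    rw [Finset.sum_const, nsmul_eq_mul]
    refine mul_le_mul_of_nonneg_right ?_
      (mul_nonneg (by norm_num) (mul_nonneg hf0.le (mul_nonneg he0.le hn0.le)))
    rw [hn]; exact_mod_cast Finset.card_filter_le _ _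
  have h5 : ∑ c ∈ F', ∑ c' ∈ F, cr B B (c' - c) = NN F F' B B := by
    unfold NN; exact Finset.sum_comm
  have h6 : 0.737 * (e * n ^ 2) * F.card ≤ NN F F' B B := by
    have e1 : n * (0.01 * ((F.card : ℝ) * (e * n))) = 0.01 * (e * n ^ 2) * F.card := by ring
    rw [e1] at h4
    rw [← h5]
    linarith
  -- upper bound
  have h7 := NN_cs4 F F' B
  have h8 := hext F hF
  have h9 := hext F' hF'B
  rw [← hn] at h8 h9
  set a : ℝ := (F.card : ℝ) / n with ha
  set a' : ℝ := (F'.card : ℝ) / n with ha'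
  have ha0 : 0 < a := div_pos hf0 hn0
  have ha'0 : 0 ≤ a' := div_nonneg (Nat.cast_nonneg _) hn0.le
  have hFa : (F.card : ℝ) = a * n := by rw [ha, div_mul_cancel₀ _ hn0.ne']
  set s : ℝ := 299 / 100 with hs
  have hE0 : 0 < NN B B B B := by rw [hE]; exact mul_pos he0 (pow_pos hn0 3)
  have hpos1 : 0 ≤ 0.737 * (e * n ^ 2) * F.card :=
    mul_nonneg (mul_nonneg (by norm_num) (mul_nonneg he0.le (sq_nonneg _))) hf0.le
  have has : 0 ≤ a ^ s := Real.rpow_nonneg ha0.le _
  have ha's : 0 ≤ a' ^ s := Real.rpow_nonneg ha'0 _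
  have h10 : (0.737 * (e * n ^ 2) * F.card) ^ 4
      ≤ (a ^ s * NN B B B B) * (a' ^ s * NN B B B B) * (NN B B B B) ^ 2 := by
    calc (0.737 * (e * n ^ 2) * F.card) ^ 4 ≤ (NN F F' B B) ^ 4 :=
          pow_le_pow_left₀ hpos1 h6 4
      _ ≤ NN F F F F * NN F' F' F' F' * (NN B B B B) ^ 2 := h7
      _ ≤ (a ^ s * NN B B B B) * (a' ^ s * NN B B B B) * (NN B B B B) ^ 2 := by
          refine mul_le_mul_of_nonneg_right ?_ (sq_nonneg _)
          exact mul_le_mul h8 h9 (NN_nonneg _ _ _ _) (mul_nonneg has hE0.le)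
  have h11 : (0.737 : ℝ) ^ 4 * a ^ 4 ≤ a ^ s * a' ^ s := by
    have hpos : 0 < (NN B B B B) ^ 4 := pow_pos hE0 4
    have h12 : ((0.737 : ℝ) ^ 4 * a ^ 4) * (NN B B B B) ^ 4 ≤ (a ^ s * a' ^ s) * (NN B B B B) ^ 4 := by
      have e2 : (0.737 * (e * n ^ 2) * F.card) ^ 4 = ((0.737 : ℝ) ^ 4 * a ^ 4) * (NN B B B B) ^ 4 := by
        rw [hE, hFa]; ring
      rw [← e2]
      refine h10.trans (le_of_eq ?_)
      ring
    exact le_of_mul_le_mul_right h12 hpos
  -- take the root
  have haX : Real.exp (-X) ≤ a := by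
    rw [ha, le_div_iff₀ hn0]; exact hX
  have h13 : a ^ 4 = a ^ s * a ^ (4 - s) := by
    rw [← Real.rpow_add ha0, ← Real.rpow_natCast a 4]
    congr 1
    norm_num
  have h14 : (0.737 : ℝ) ^ 4 * a ^ (4 - s) ≤ a' ^ s := by
    rw [h13] at h11
    have hpos : 0 < a ^ s := Real.rpow_pos_of_pos ha0 _
    have h15 : a ^ s * ((0.737 : ℝ) ^ 4 * a ^ (4 - s)) ≤ a ^ s * a' ^ s := by linarith
    exact le_of_mul_le_mul_left h15 hpos
  have h15 : Real.exp (-(s * Y)) ≤ a' ^ s := by
    refine le_trans ?_ h14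
    have h16 : Real.exp (-(4 * 0.3069)) ≤ (0.737 : ℝ) ^ 4 := by
      have : Real.exp (-(4 * 0.3069)) = (Real.exp (-0.3069)) ^ 4 := by
        rw [← Real.exp_nat_mul]; congr 1; norm_num
      rw [this]
      exact pow_le_pow_left₀ (Real.exp_pos _).le exp_num1 4
    have h17 : Real.exp (-((4 - s) * X)) ≤ a ^ (4 - s) := by
      have : Real.exp (-((4 - s) * X)) = (Real.exp (-X)) ^ (4 - s) := by
        rw [← Real.exp_mul]; congr 1; ring
      rw [this]
      exact Real.rpow_le_rpow (Real.exp_pos _).le haX (by norm_num [hs])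
    calc Real.exp (-(s * Y)) ≤ Real.exp (-(4 * 0.3069)) * Real.exp (-((4 - s) * X)) := by
          rw [← Real.exp_add]
          refine Real.exp_le_exp.2 ?_
          have : (4:ℝ) - s = 101 / 100 := by norm_num [hs]
          rw [this]
          linarith
      _ ≤ (0.737 : ℝ) ^ 4 * a ^ (4 - s) :=
          mul_le_mul h16 h17 (Real.exp_pos _).le (by norm_num)
  have h16 : Real.exp (-Y) ≤ a' := by
    have h17 : (Real.exp (-Y)) ^ s ≤ a' ^ s := by
      have : (Real.exp (-Y)) ^ s = Real.exp (-(s * Y)) := by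
        rw [← Real.exp_mul]; congr 1; ring
      rw [this]; exact h15
    exact (Real.rpow_le_rpow_iff (Real.exp_pos _).le ha'0 (by norm_num [hs])).1 h17
  rw [ha', le_div_iff₀ hn0] at h16
  exact h16

lemma exp_num2 : (0.505 : ℝ) ≤ Real.exp (-0.68) := by
  have h1 : (1 - 0.68 / 128 : ℝ) ≤ Real.exp (-0.68 / 128) := by
    have := Real.add_one_le_exp (-0.68 / 128 : ℝ)
    refine le_trans (le_of_eq ?_) this
    norm_num
  have h : (1 - 0.68 / 128 : ℝ) ^ 128 ≤ Real.exp (-0.68) := by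
    calc (1 - 0.68 / 128 : ℝ) ^ 128 ≤ (Real.exp (-0.68 / 128)) ^ 128 :=
          pow_le_pow_left₀ (by norm_num) h1 128
      _ = Real.exp (-0.68) := by rw [← Real.exp_nat_mul]; norm_num
  have h2 : (0.505 : ℝ) ≤ (1 - 0.68 / 128 : ℝ) ^ 128 := by norm_num
  linarith

lemma exp_log100 (l : ℝ) : Real.exp (-(Real.log 100 + l)) = 0.01 * Real.exp (-l) := by
  rw [neg_add, Real.exp_add, Real.exp_neg, Real.exp_log (by norm_num)]
  norm_num

/-- the growing sets along the walk -/
lemma walk_sets (B : Finset G) (hB : B.Nonempty) (hext : Extremal B)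
    (l : ℝ) (hE : NN B B B B = Real.exp (-l) * (B.card : ℝ) ^ 3)
    (hee : ∀ b ∈ B, 0.747 * (Real.exp (-l) * (B.card : ℝ) ^ 2) ≤ ee B b)
    (f : G → ℝ) (hf : ∀ c, 0 ≤ f c) (hfn : ∀ c, f c ≤ B.card)
    (hfs : 0.747 * (Real.exp (-l) * (B.card : ℝ) ^ 2) ≤ ∑ c ∈ B, f c) (j : ℕ) :
    ∃ F ⊆ B, Real.exp (-(XX l j)) * B.card ≤ F.card ∧
      ∀ c ∈ F, Real.exp (-(WW l j)) * (B.card : ℝ) ^ (2 * j + 1) ≤ (TT B)^[j] f c := by
  classical
  set n : ℝ := (B.card : ℝ) with hn
  have hn0 : 0 < n := by rw [hn]; exact_mod_cast hB.card_pos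
  set e := Real.exp (-l) with he
  have he0 : 0 < e := Real.exp_pos _
  induction j with
  | zero =>
    refine ⟨B.filter (fun c => 0.01 * (e * n) ≤ f c), Finset.filter_subset _ _, ?_, ?_⟩
    · set F := B.filter (fun c => 0.01 * (e * n) ≤ f c) with hF
      have h1 : ∑ c ∈ B, f c = ∑ c ∈ F, f c + ∑ c ∈ B.filter (fun c => ¬ 0.01 * (e * n) ≤ f c), f c :=
        (Finset.sum_filter_add_sum_filter_not _ _ _).symm
      have h2 : ∑ c ∈ F, f c ≤ F.card * n := by
        refine (Finset.sum_le_sum fun c _ => hfn c).trans ?_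
        rw [Finset.sum_const, nsmul_eq_mul]
      have h3 : ∑ c ∈ B.filter (fun c => ¬ 0.01 * (e * n) ≤ f c), f c ≤ n * (0.01 * (e * n)) := by
        have h5 : ∀ c ∈ B.filter (fun c => ¬ 0.01 * (e * n) ≤ f c), f c ≤ 0.01 * (e * n) := by
          intro c hc
          have := (Finset.mem_filter.1 hc).2
          push Not at this
          exact this.le
        refine (Finset.sum_le_sum h5).trans ?_
        rw [Finset.sum_const, nsmul_eq_mul]
        refine mul_le_mul_of_nonneg_right ?_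
          (mul_nonneg (by norm_num) (mul_nonneg he0.le hn0.le))
        rw [hn]; exact_mod_cast Finset.card_filter_le _ _
      have h4 : (0.737 * e * n) * n ≤ F.card * n := by
        have e1 : n * (0.01 * (e * n)) = 0.01 * (e * n ^ 2) := by ring
        have e2 : (0.737 * e * n) * n = 0.737 * (e * n ^ 2) := by ring
        rw [e1] at h3
        rw [e2]
        linarith
      have h5 := le_of_mul_le_mul_right h4 hn0
      refine le_trans ?_ h5
      refine mul_le_mul_of_nonneg_right ?_ hn0.le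
      have h6 : Real.exp (-(XX l 0)) = Real.exp (-0.62) * e := by
        rw [he, ← Real.exp_add]; congr 1; simp [XX]; ring
      rw [h6]
      refine mul_le_mul_of_nonneg_right ?_ he0.le
      exact (Real.exp_le_exp.2 (by norm_num)).trans exp_num1
    · intro c hc
      have := (Finset.mem_filter.1 hc).2
      simp only [WW, Function.iterate_zero, id_eq, mul_zero, zero_add, pow_one]
      rw [exp_log100]
      linarith
  | succ j ih =>
    obtain ⟨F, hFB, hFc, hFw⟩ := ih
    have hFne : F.Nonempty := by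
      rw [← Finset.card_pos]
      have : (0:ℝ) < F.card := lt_of_lt_of_le (mul_pos (Real.exp_pos _) hn0) hFc
      exact_mod_cast this
    have hXY : (101 / 100) * XX l j + 4 * 0.3069 ≤ (299 / 100) * XX l (j + 1) := by
      simp only [XX, pow_succ]
      have : (299 / 100 : ℝ) * (0.62 + th ^ j * th * l)
          = (299 / 100) * 0.62 + (101 / 100) * (th ^ j * l) := by
        unfold th; ring
      rw [this]
      have : (101 / 100 : ℝ) * (0.62 + th ^ j * l)
          = (101 / 100) * 0.62 + (101 / 100) * (th ^ j * l) := by ring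
      rw [this]
      linarith
    have hexp := expand B hB hext l hE hee F hFB hFne (XX l j) (XX l (j + 1)) hFc hXY
    refine ⟨_, Finset.filter_subset _ _, hexp, ?_⟩
    intro c hc
    have hc2 := (Finset.mem_filter.1 hc).2
    rw [Function.iterate_succ_apply']
    set g := (TT B)^[j] f with hg
    have hg0 : ∀ c, 0 ≤ g c := TTi_nonneg B f hf j
    set w := Real.exp (-(WW l j)) * n ^ (2 * j + 1) with hw
    have hw0 : 0 < w := mul_pos (Real.exp_pos _) (pow_pos hn0 _)
    have h1 : w * ∑ c' ∈ F, cr B B (c' - c) ≤ TT B g c := by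
      unfold TT
      rw [Finset.mul_sum]
      calc ∑ c' ∈ F, w * cr B B (c' - c) ≤ ∑ c' ∈ F, g c' * cr B B (c' - c) :=
            Finset.sum_le_sum fun c' hc' => mul_le_mul_of_nonneg_right (hFw c' hc') (cr_nonneg _ _ _)
        _ ≤ ∑ c' ∈ B, g c' * cr B B (c' - c) :=
            Finset.sum_le_sum_of_subset_of_nonneg hFB fun c' _ _ =>
              mul_nonneg (hg0 c') (cr_nonneg _ _ _)
    refine le_trans ?_ h1
    have h2 : w * (0.01 * ((Real.exp (-(XX l j)) * n) * (e * n))) ≤ w * ∑ c' ∈ F, cr B B (c' - c) := by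
      refine mul_le_mul_of_nonneg_left (le_trans ?_ hc2) hw0.le
      refine mul_le_mul_of_nonneg_left ?_ (by norm_num)
      exact mul_le_mul_of_nonneg_right hFc (mul_nonneg he0.le hn0.le)
    refine le_trans (le_of_eq ?_) h2
    have h3 : Real.exp (-(WW l (j + 1)))
        = Real.exp (-(WW l j)) * (0.01 * e) * Real.exp (-(XX l j)) := by
      rw [he, ← exp_log100, ← Real.exp_add, ← Real.exp_add]
      congr 1
      simp only [WW]; ring
    rw [h3, hw]
    ring

/-- the path bound -/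
lemma path_bound (B : Finset G) (hB : B.Nonempty) (hext : Extremal B)
    (l : ℝ) (hE : NN B B B B = Real.exp (-l) * (B.card : ℝ) ^ 3)
    (hee : ∀ b ∈ B, 0.747 * (Real.exp (-l) * (B.card : ℝ) ^ 2) ≤ ee B b)
    (j : ℕ) (hj : XX l j ≤ 0.68) :
    ((B + B).card : ℝ) ≤ 100 * Real.exp (2 * WW l j) * B.card := by
  classical
  set n : ℝ := (B.card : ℝ) with hn
  have hn0 : 0 < n := by rw [hn]; exact_mod_cast hB.card_pos
  set w := Real.exp (-(WW l j)) * n ^ (2 * j + 1) with hw
  have hw0 : 0 < w := mul_pos (Real.exp_pos _) (pow_pos hn0 _)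
  have hmeas : ∀ F : Finset G, Real.exp (-(XX l j)) * n ≤ F.card → 0.505 * n ≤ F.card := by
    intro F hF
    refine le_trans (mul_le_mul_of_nonneg_right ?_ hn0.le) hF
    exact exp_num2.trans (Real.exp_le_exp.2 (by linarith))
  have key : ∀ x ∈ B + B, 0.01 * n * w ^ 2 ≤ FF B (2 * j + 1) x := by
    intro x hx
    obtain ⟨b', hb', b, hb, rfl⟩ := Finset.mem_add.1 hx
    obtain ⟨F, hFB, hFc, hFw⟩ := walk_sets B hB hext l hE hee (fun c => cr B B (b - c))
      (fun c => cr_nonneg _ _ _) (fun c => cr_le _ _) (hee b hb) j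
    obtain ⟨F', hF'B, hF'c, hF'w⟩ := walk_sets B hB hext l hE hee (fun c => cp B B (b' + c))
      (fun c => cp_nonneg _ _ _) (fun c => cp_le _ _) (by rw [← ee_plus]; exact hee b' hb') j
    have hF1 := hmeas F hFc
    have hF2 := hmeas F' hF'c
    have hI := inter_card B F F' hFB hF'B
    rw [← hn] at hI
    have hI2 : 0.01 * n ≤ ((F ∩ F').card : ℝ) := by linarith
    set φ := (TT B)^[j] (fun c => cr B B (b - c)) with hφ
    set ψ := (TT B)^[j] (fun c => cp B B (b' + c)) with hψ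
    have hφ0 : ∀ c, 0 ≤ φ c := TTi_nonneg B _ (fun c => cr_nonneg _ _ _) j
    have hψ0 : ∀ c, 0 ≤ ψ c := TTi_nonneg B _ (fun c => cp_nonneg _ _ _) j
    have h1 : 0.01 * n * w ^ 2 ≤ ∑ c ∈ B, φ c * ψ c := by
      calc 0.01 * n * w ^ 2 ≤ ((F ∩ F').card : ℝ) * w ^ 2 :=
            mul_le_mul_of_nonneg_right hI2 (sq_nonneg _)
        _ = ∑ c ∈ F ∩ F', w * w := by
            rw [Finset.sum_const, nsmul_eq_mul]; ring
        _ ≤ ∑ c ∈ F ∩ F', φ c * ψ c := by
            refine Finset.sum_le_sum fun c hc => ?_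
            obtain ⟨hc1, hc2⟩ := Finset.mem_inter.1 hc
            exact mul_le_mul (hFw c hc1) (hF'w c hc2) hw0.le (hφ0 c)
        _ ≤ ∑ c ∈ B, φ c * ψ c :=
            Finset.sum_le_sum_of_subset_of_nonneg (Finset.inter_subset_left.trans hFB)
              fun c _ _ => mul_nonneg (hφ0 c) (hψ0 c)
    have h2 : ∑ c ∈ B, φ c * ψ c = (TT B)^[2 * j + 1] (fun c => cp B B (b' + c)) b := by
      rw [hφ, TTi_symm, hψ, ← Function.iterate_add_apply]
      have : 2 * j + 1 = (j + j) + 1 := by ring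
      rw [this, Function.iterate_succ_apply']
      unfold TT
      refine Finset.sum_congr rfl fun c _ => ?_
      rw [cr_sub_comm B b c, mul_comm]
    rw [h2] at h1
    exact h1.trans (walk_le B b' (2 * j + 1) b)
  have h1 : ∑ x ∈ B + B, 0.01 * n * w ^ 2 ≤ ∑ x ∈ B + B, FF B (2 * j + 1) x :=
    Finset.sum_le_sum key
  have h2 := h1.trans (FF_sum B (2 * j + 1) (B + B))
  rw [Finset.sum_const, nsmul_eq_mul, ← hn] at h2
  have h3 : w ^ 2 = Real.exp (-(2 * WW l j)) * n ^ (4 * j + 2) := by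
    rw [hw, mul_pow, ← Real.exp_nat_mul, ← pow_mul]
    congr 2
    · push_cast; ring
    · ring
  have h4 : (B + B).card * (0.01 * Real.exp (-(2 * WW l j))) * n ^ (4 * j + 3)
      ≤ n * n ^ (4 * j + 3) := by
    have e1 : ((B + B).card : ℝ) * (0.01 * Real.exp (-(2 * WW l j))) * n ^ (4 * j + 3)
        = (B + B).card * (0.01 * n * w ^ 2) := by rw [h3]; ring
    rw [e1]
    refine h2.trans (le_of_eq ?_)
    ring
  have h5 := le_of_mul_le_mul_right h4 (pow_pos hn0 _)
  have h6 : 0 < Real.exp (2 * WW l j) := Real.exp_pos _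
  calc ((B + B).card : ℝ)
      = ((B + B).card * (0.01 * Real.exp (-(2 * WW l j)))) * (100 * Real.exp (2 * WW l j)) := by
        rw [Real.exp_neg]; field_simp; norm_num
    _ ≤ n * (100 * Real.exp (2 * WW l j)) := mul_le_mul_of_nonneg_right h5 (by positivity)
    _ = 100 * Real.exp (2 * WW l j) * n := by ring

/-! ### numerics -/

lemma log100_le : Real.log 100 ≤ 4.621 := by
  have h1 : 3 * Real.log 100 ≤ 20 * Real.log 2 := by
    have : Real.log ((100:ℝ) ^ 3) ≤ Real.log ((2:ℝ) ^ 20) :=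
      Real.log_le_log (by norm_num) (by norm_num)
    rwa [Real.log_pow, Real.log_pow] at this
  have := Real.log_two_lt_d9
  linarith

lemma log148_ge : 0.385 ≤ Real.log 1.48 := by
  have h1 : 5 * Real.log 2 ≤ 9 * Real.log 1.48 := by
    have : Real.log ((2:ℝ) ^ 5) ≤ Real.log ((1.48:ℝ) ^ 9) :=
      Real.log_le_log (by norm_num) (by norm_num)
    rwa [Real.log_pow, Real.log_pow] at this
  have := Real.log_two_gt_d9
  linarith

lemma log_tangent (l : ℝ) (hl : 0 < l) : Real.log l ≤ 1.902 * l - 1.6398 := by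
  have h1 : Real.log (l / 0.5258) ≤ l / 0.5258 - 1 := Real.log_le_sub_one_of_pos (by positivity)
  have h2 : Real.log (l / 0.5258) = Real.log l - Real.log 0.5258 :=
    Real.log_div hl.ne' (by norm_num)
  have h3 : Real.log 0.5258 ≤ -0.6398 := by
    have h4 : 13 * Real.log 0.5258 ≤ -(12 * Real.log 2) := by
      have h5 : Real.log ((0.5258:ℝ) ^ 13) ≤ Real.log (((2:ℝ) ^ 12)⁻¹) :=
        Real.log_le_log (by norm_num) (by norm_num)
      rw [Real.log_pow, Real.log_inv, Real.log_pow] at h5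
      exact h5
    have := Real.log_two_gt_d9
    linarith
  have h6 : l / 0.5258 ≤ 1.902 * l := by
    rw [div_le_iff₀ (by norm_num)]
    nlinarith
  linarith

lemma th_le : th ≤ Real.exp (-1.08) := by
  have h1 : (Real.exp 1) ^ 27 ≤ (299 / 101 : ℝ) ^ 25 := by
    calc (Real.exp 1) ^ 27 ≤ (2.7182818286 : ℝ) ^ 27 :=
          pow_le_pow_left₀ (Real.exp_pos _).le Real.exp_one_lt_d9.le 27
      _ ≤ (299 / 101 : ℝ) ^ 25 := by norm_num
  have h2 : (Real.exp 1.08) ^ 25 ≤ (299 / 101 : ℝ) ^ 25 := by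
    have : (Real.exp 1.08) ^ 25 = (Real.exp 1) ^ 27 := by
      rw [← Real.exp_nat_mul, ← Real.exp_nat_mul]; norm_num
    rw [this]; exact h1
  have h3 : Real.exp 1.08 ≤ 299 / 101 :=
    le_of_pow_le_pow_left₀ (by norm_num) (by norm_num) h2
  rw [Real.exp_neg, th, le_inv_comm₀ (by norm_num) (Real.exp_pos _)]
  refine h3.trans (by norm_num)

lemma exp282 : Real.exp (-2.82) ≤ 0.06 := by
  have h1 : (50 / 3 : ℝ) ^ 50 ≤ (Real.exp 1) ^ 141 := by
    calc (50 / 3 : ℝ) ^ 50 ≤ (2.7182818283 : ℝ) ^ 141 := by norm_num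
      _ ≤ (Real.exp 1) ^ 141 := pow_le_pow_left₀ (by norm_num) Real.exp_one_gt_d9.le 141
  have h2 : (50 / 3 : ℝ) ^ 50 ≤ (Real.exp 2.82) ^ 50 := by
    have : (Real.exp 2.82) ^ 50 = (Real.exp 1) ^ 141 := by
      rw [← Real.exp_nat_mul, ← Real.exp_nat_mul]; norm_num
    rw [this]; exact h1
  have h3 : (50 / 3 : ℝ) ≤ Real.exp 2.82 :=
    le_of_pow_le_pow_left₀ (by norm_num) (Real.exp_pos _).le h2
  rw [Real.exp_neg, inv_le_comm₀ (Real.exp_pos _) (by norm_num)]
  refine le_trans (by norm_num) h3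

/-- there is a good number of steps -/
lemma exists_steps (l : ℝ) (hl : 0.385 ≤ l) :
    ∃ j : ℕ, XX l j ≤ 0.68 ∧ Real.log 100 + 2 * WW l j ≤ max 100 (3 * Real.log l) * l := by
  have hl0 : 0 < l := by linarith
  have h100 := log100_le
  rcases le_or_gt l 0.5258 with h | h
  · refine ⟨2, ?_, ?_⟩
    · unfold XX th
      nlinarith
    · have hW := WW_le l hl0.le 2
      have : (100:ℝ) * l ≤ max 100 (3 * Real.log l) * l :=
        mul_le_mul_of_nonneg_right (le_max_left _ _) hl0.le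
      push_cast at hW
      linarith
  · set y := Real.log l with hy
    have hyt : y ≤ 1.902 * l - 1.6398 := log_tangent l hl0
    have hy0 : -0.9 ≤ y := by
      have h2 : Real.log (1 / 2) ≤ Real.log l := Real.log_le_log (by norm_num) (by linarith)
      rw [one_div, Real.log_inv] at h2
      have := Real.log_two_lt_d9
      linarith
    set j := ⌈(y + 2.82) / 1.08⌉₊ with hj
    have hj1 : (y + 2.82) / 1.08 ≤ j := Nat.le_ceil _
    have hj2 : (j : ℝ) < (y + 2.82) / 1.08 + 1 :=
      Nat.ceil_lt_add_one (div_nonneg (by linarith) (by norm_num))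
    have hj3 : (j : ℝ) ≤ 3.6112 + 0.926 * y + 0.0001 * 1 := by
      have : (y + 2.82) / 1.08 + 1 ≤ 3.6112 + 0.926 * y + 0.0001 * 1 := by
        have e : (y + 2.82) / 1.08 = y * (1 / 1.08) + 2.82 / 1.08 := by ring
        rw [e]
        rcases le_or_gt 0 y with h0 | h0
        · have : y * (1 / 1.08) ≤ y * 0.926 := mul_le_mul_of_nonneg_left (by norm_num) h0
          norm_num at this ⊢
          linarith
        · have : y * (1 / 1.08) ≤ y * 0.9259 :=
            mul_le_mul_of_nonpos_left (by norm_num) h0.le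
          norm_num at this ⊢
          linarith
      linarith
    refine ⟨j, ?_, ?_⟩
    · unfold XX
      have h1 : th ^ j ≤ Real.exp (-(y + 2.82)) := by
        have h2 : th ^ j ≤ (Real.exp (-1.08)) ^ j :=
          pow_le_pow_left₀ (by norm_num [th]) th_le j
        rw [← Real.exp_nat_mul] at h2
        refine h2.trans (Real.exp_le_exp.2 ?_)
        rw [div_le_iff₀ (by norm_num)] at hj1
        linarith
      have h3 : Real.exp (-(y + 2.82)) * l ≤ 0.06 := by
        have : Real.exp (-(y + 2.82)) * l = Real.exp (-2.82) := by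
          rw [neg_add, Real.exp_add, Real.exp_neg, hy, Real.exp_log hl0]
          field_simp
        rw [this]; exact exp282
      have h4 := mul_le_mul_of_nonneg_right h1 hl0.le
      linarith
    · have hW := WW_le l hl0.le j
      have hj0 : (0:ℝ) ≤ j := Nat.cast_nonneg _
      -- collect
      have h1 : Real.log 100 + 2 * WW l j
          ≤ 10.482 * j + 13.863 + (2 * j + 5.0204) * l := by
        have h2 : (j:ℝ) * Real.log 100 ≤ j * 4.621 := mul_le_mul_of_nonneg_left h100 hj0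
        nlinarith
      have h2 : 10.482 * (j:ℝ) + 13.863 + (2 * j + 5.0204) * l
          ≤ 51.7167 + 9.706332 * y + (12.243 + 1.852 * y) * l := by
        have h3 : (j:ℝ) * l ≤ (3.6112 + 0.926 * y + 0.0001 * 1) * l :=
          mul_le_mul_of_nonneg_right hj3 hl0.le
        linarith
      refine h1.trans (h2.trans ?_)
      rcases le_or_gt l 20 with h20 | h20
      · have h3 : (9.706332 + 1.852 * l) * y ≤ (9.706332 + 1.852 * l) * (1.902 * l - 1.6398) :=
          mul_le_mul_of_nonneg_left hyt (by linarith)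
        have h4 : (100:ℝ) * l ≤ max 100 (3 * y) * l :=
          mul_le_mul_of_nonneg_right (le_max_left _ _) hl0.le
        nlinarith [mul_nonneg (sub_nonneg.2 h.le) (sub_nonneg.2 h20)]
      · have hy1 : 0 < y := Real.log_pos (by linarith)
        rcases le_or_gt (3 * y) 100 with h3 | h3
        · have h4 : (100:ℝ) * l ≤ max 100 (3 * y) * l :=
            mul_le_mul_of_nonneg_right (le_max_left _ _) hl0.le
          have h5 : y * l ≤ (100 / 3) * l := mul_le_mul_of_nonneg_right (by linarith) hl0.le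
          linarith
        · have h4 : (3 * y) * l ≤ max 100 (3 * y) * l :=
            mul_le_mul_of_nonneg_right (le_max_right _ _) hl0.le
          have h5 : y * 20 ≤ y * l := mul_le_mul_of_nonneg_left h20.le hy1.le
          have h6 : 33 * l ≤ y * l := mul_le_mul_of_nonneg_right (by linarith) hl0.le
          have h7 : (33:ℝ) * 20 ≤ y * l := by linarith
          linarith

end Pool.Agent.BSGEnergy
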